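import Pool.Agent.Helper8.CL.Time

/-!
# Comparison with the walk
-/

set_option autoImplicit false

namespace Pool.Agent.Helper8.CL

open Pool.Agent.Helper68.Moeller Pool.Agent.Helper52.Tao Pool.Agent.Helper8.ND

variable {d m : ℕ} {r : ℤ → ℤ}

theorem FK_nonneg (z : ℝ) (G : Set ℤ) (k : ℤ) (u : ℝ) : 0 ≤ FK d m r z G k u :=
  fd_nonneg _ (Real.exp_pos u).le

theorem FK_le_two (z : ℝ) (G : Set ℤ) (k : ℤ) {u : ℝ} (hu : 0 ≤ u) : FK d m r z G k u ≤ 2 :=
  fd_le_two _ (Real.one_le_exp hu)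

theorem fd_mono {A B : Set ℤ} (h : A ⊆ B) {a : ℝ} (ha : 0 ≤ a) : fd A a ≤ fd B a := by
  unfold fd
  apply div_le_div_of_nonneg_right _ ha
  have h1 : {n : ℤ | a ≤ n ∧ (n : ℝ) < 2 * a ∧ n ∈ A} ⊆ {n : ℤ | a ≤ n ∧ (n : ℝ) < 2 * a ∧ n ∈ B} :=
    fun n hn => ⟨hn.1, hn.2.1, h hn.2.2⟩
  exact_mod_cast Set.ncard_le_ncard h1 (finite_Y B a)

/-- `u - lam u ^ (1/4)` is increasing. -/
theorem sub_ge {lam s u t : ℝ} (hlam : 0 < lam) (hs : 1 + lam ≤ s) (hu : s ^ 4 ≤ u) (ht0 : 0 ≤ t)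
    (ht : t ^ 4 ≤ u) : s ^ 4 - lam * s ≤ u - lam * t := by
  have hs1 : 1 ≤ s := by linarith
  rcases le_or_gt t s with h | h
  · have := mul_le_mul_of_nonneg_left h hlam.le
    linarith
  · have h1 : s ^ 4 + (t - s) * lam ≤ t ^ 4 := by
      have e : t ^ 4 - s ^ 4 = (t - s) * ((t + s) * (t ^ 2 + s ^ 2)) := by ring
      have h2 : lam ≤ (t + s) * (t ^ 2 + s ^ 2) := by
        have h3 : 1 ≤ t ^ 2 + s ^ 2 := by nlinarith
        have h4 : t + s ≤ (t + s) * (t ^ 2 + s ^ 2) := le_mul_of_one_le_right (by linarith) h3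
        linarith
      have h5 := mul_le_mul_of_nonneg_left h2 (by linarith : 0 ≤ t - s)
      linarith
    linarith

/-- For all but the integers of `NZ`, the orbit is at most `z` at a bounded time. -/
theorem exists_time (z X : ℝ) : ∃ K : ℕ, ∀ n : ℤ, 0 < n → (n : ℝ) < X → n ∉ NZ d m r z →
    ∃ i : ℕ, i ≤ K ∧ ((T d m r)^[i] n : ℝ) ≤ z := by
  have h1 : ∀ n : ℤ, ∃ i : ℕ, n ∉ NZ d m r z → ((T d m r)^[i] n : ℝ) ≤ z := by
    intro n
    by_cases h : n ∈ NZ d m r z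
    · exact ⟨0, fun h' => absurd h h'⟩
    · simp only [NZ, Set.mem_ofPred_eq, not_forall, not_lt] at h
      obtain ⟨i, hi⟩ := h
      exact ⟨i, fun _ => hi⟩
  choose f hf using h1
  refine ⟨(Finset.Icc (1 : ℤ) ⌊X⌋).sup f, fun n hn0 hnX hn => ⟨f n, ?_, hf n hn⟩⟩
  apply Finset.le_sup (f := f)
  rw [Finset.mem_Icc]
  exact ⟨hn0, Int.le_floor.2 hnX.le⟩

theorem upper (hd : 2 ≤ d) (hdm : d < m) (hco : Nat.Coprime m d)
    (hγ : (1 - 1 / (d : ℝ)) * Real.log m < Real.log d) (hr : Admissible d m r)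
    (hmix : Mixing d m r) :
    ∃ S₁ : ℝ, 4 ≤ S₁ ∧ ∀ z : ℝ, 1 ≤ z → ∃ u₀ : ℝ, ∀ G : Set ℤ, TInv d m r G z →
      ∀ (c₁ ε s : ℝ), 0 ≤ c₁ → 0 ≤ ε → S₁ ≤ s → u₀ ≤ s ^ 4 →
      (∀ x, s ^ 4 - Real.log d * s ≤ x → fd G (Real.exp x) ≤ c₁ + ε) →
      (∀ x, s ^ 4 - Real.log d * s ≤ x → fd (NZ d m r z) (Real.exp x) ≤ ε) →
      ∃ θ : ℝ, ∀ (k : ℤ) (u : ℝ), s ^ 4 ≤ u →
        FK d m r z G k u ≤ c₁ * V d (Real.log m) (Real.log d) θ k u + (ε + 2 / s ^ 4) := by
  obtain ⟨c, C, hc, hC, hflow⟩ := flowF hd hdm hco hr hmix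
  obtain ⟨S₁, hS₁, hmax⟩ := maxp2 hd hdm hγ hc hC
  have hd2 : (2 : ℝ) ≤ d := by exact_mod_cast hd
  have hm3 : (3 : ℝ) ≤ m := by exact_mod_cast (by omega : 3 ≤ m)
  have hlam : 0 < Real.log d := Real.log_pos (by linarith)
  have hμ : 0 < Real.log m := Real.log_pos (by linarith)
  refine ⟨S₁ + (1 + Real.log d), by linarith, fun z hz => ?_⟩
  obtain ⟨u₀, hu₀, hfl⟩ := hflow z hz
  refine ⟨u₀, fun G hG c₁ ε s hc₁ hε hs hus hG1 hN1 => ?_⟩
  have hs4 : 4 ≤ s := by linarith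
  set L := s ^ 4 with hL
  have hL0 : 0 < L := by positivity
  have hLs : 0 < L - Real.log d * s := by
    have h1 : s ^ 4 = s * s ^ 3 := by ring
    have h2 : s ≤ s ^ 3 := by
      calc s = s ^ 1 := (pow_one s).symm
        _ ≤ s ^ 3 := pow_le_pow_right₀ (by linarith) (by norm_num)
    have h3 : Real.log d * s < s * s := mul_lt_mul_of_pos_right (by linarith) (by linarith)
    have h4 : s * s ≤ s * s ^ 3 := mul_le_mul_of_nonneg_left h2 (by linarith)
    rw [hL, h1]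
    linarith
  obtain ⟨K, hK⟩ := exists_time (d := d) (m := m) (r := r) z (2 * Real.exp L)
  set θ := L - Real.log d * s - K * Real.log d - 1 with hθ
  have hKl : 0 ≤ (K : ℝ) * Real.log d := by positivity
  refine ⟨θ, ?_⟩
  have hmain := hmax s (by linarith) (fun k u => FK d m r z G k u -
    c₁ * V d (Real.log m) (Real.log d) θ k u) ?_ ?_ ε hε ?_
  · intro k u hu
    have := hmain k u hu
    linarith
  · intro k u hu
    have h1 : FK d m r z G k u ≤ 2 := FK_le_two z G k (hL0.le.trans hu)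
    have h2 : 0 ≤ c₁ * V d (Real.log m) (Real.log d) θ k u := mul_nonneg hc₁ (V_nonneg k u)
    linarith
  · intro k u hu t ht htc ht4
    have hdt : (0 : ℝ) < (d : ℝ) ^ t := by positivity
    have h1 := (abs_le.1 (hfl G hG k u (hus.trans hu) t ht htc)).2
    have h2 : V d (Real.log m) (Real.log d) θ k u = _ := V_harm (by omega) hμ.le hlam.le (t := t)
      (u := u) (by
        have h3 := sub_ge hlam (by linarith) hu (by positivity : (0 : ℝ) ≤ t) ht4
        have e : (t : ℝ) * Real.log d = Real.log d * t := mul_comm _ _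
        rw [hθ, e]
        linarith) k
    rw [Finset.sum_sub_distrib, ← Finset.mul_sum, sub_div, mul_div_assoc, ← h2]
    linarith
  · intro k x h1 h2
    have hx0 : 0 ≤ x := hLs.le.trans h1
    rcases le_or_gt k (K : ℤ) with hk | hk
    · have h3 : V d (Real.log m) (Real.log d) θ k x = 1 := by
        apply V_eq_one (by omega) hμ.le
        have h4 : (k : ℝ) ≤ K := by exact_mod_cast hk
        have h5 := mul_le_mul_of_nonneg_right h4 hlam.le
        rw [hθ]
        linarith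
      rw [h3, mul_one]
      have h4 : FK d m r z G k x ≤ fd G (Real.exp x) :=
        fd_mono Set.inter_subset_right (Real.exp_pos x).le
      have := hG1 x h1
      linarith
    · have h3 : FK d m r z G k x ≤ fd (NZ d m r z) (Real.exp x) := by
        have h4 : {n : ℤ | Real.exp x ≤ n ∧ (n : ℝ) < 2 * Real.exp x ∧ n ∈ SK d m r z k ∩ G} ⊆
            {n : ℤ | Real.exp x ≤ n ∧ (n : ℝ) < 2 * Real.exp x ∧ n ∈ NZ d m r z} := by
          rintro n ⟨a1, a2, a3, _⟩
          refine ⟨a1, a2, ?_⟩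
          by_contra hcon
          have hx1 := Real.exp_pos x
          obtain ⟨i, hi, hi'⟩ := hK n (by
            have : (0 : ℝ) < n := by linarith
            exact_mod_cast this) (lt_of_lt_of_le a2 (by
              have := Real.exp_le_exp.2 h2.le
              linarith)) hcon
          have := a3 i (by omega)
          linarith
        unfold FK fd
        apply div_le_div_of_nonneg_right _ (Real.exp_pos x).le
        exact_mod_cast Set.ncard_le_ncard h4 (finite_Y _ _)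
      have h5 : 0 ≤ c₁ * V d (Real.log m) (Real.log d) θ k x := mul_nonneg hc₁ (V_nonneg k x)
      have := hN1 x h1
      linarith

theorem lower (hd : 2 ≤ d) (hdm : d < m) (hco : Nat.Coprime m d)
    (hγ : (1 - 1 / (d : ℝ)) * Real.log m < Real.log d) (hr : Admissible d m r)
    (hmix : Mixing d m r) :
    ∃ S₁ c₀ : ℝ, 4 ≤ S₁ ∧ 0 < c₀ ∧ ∀ z : ℝ, 1 ≤ z → ∃ u₀ : ℝ, ∀ G : Set ℤ, TInv d m r G z →
      ∀ (c₁ ε s : ℝ), 0 ≤ c₁ → c₁ ≤ 2 → 0 ≤ ε → S₁ ≤ s → u₀ ≤ s ^ 4 →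
      (∀ x, s ^ 4 - Real.log d * s ≤ x → c₁ - ε ≤ fd G (Real.exp x)) →
      2 * Real.exp (-(c₀ * s ^ 4)) ≤ ε → ∀ (k : ℤ) (u : ℝ), s ^ 4 ≤ u →
        c₁ * V d (Real.log m) (Real.log d) (2 * s ^ 4) k u ≤ FK d m r z G k u + (ε + 2 / s ^ 4) := by
  obtain ⟨c, C, hc, hC, hflow⟩ := flowF hd hdm hco hr hmix
  obtain ⟨S₁, hS₁, hmax⟩ := maxp2 hd hdm hγ hc hC
  have hd2 : (2 : ℝ) ≤ d := by exact_mod_cast hd
  have hm3 : (3 : ℝ) ≤ m := by exact_mod_cast (by omega : 3 ≤ m)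
  have hlam : 0 < Real.log d := Real.log_pos (by linarith)
  have hμ : 0 < Real.log m := Real.log_pos (by linarith)
  obtain ⟨c₀, hc₀, hexpo⟩ := exists_expo hd hμ hlam hγ
  refine ⟨S₁, c₀, hS₁, hc₀, fun z hz => ?_⟩
  obtain ⟨u₀, hu₀, hfl⟩ := hflow z hz
  refine ⟨u₀, fun G hG c₁ ε s hc₁ hc₂ hε hs hus hG1 hexp k u hu => ?_⟩
  have hs4 : 4 ≤ s := by linarith
  set L := s ^ 4 with hL
  have hL0 : 0 < L := by positivity
  have hmain := hmax s hs (fun k u => c₁ * V d (Real.log m) (Real.log d) (2 * L) k u -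
    FK d m r z G k u) ?_ ?_ ε hε ?_ k u hu
  · linarith
  · intro k u hu
    have h1 : 0 ≤ FK d m r z G k u := FK_nonneg z G k u
    have h2 : c₁ * V d (Real.log m) (Real.log d) (2 * L) k u ≤ c₁ * 1 :=
      mul_le_mul_of_nonneg_left (V_le_one (by omega) k u) hc₁
    linarith
  · intro k u hu t ht htc ht4
    have hdt : (0 : ℝ) < (d : ℝ) ^ t := by positivity
    have h1 := (abs_le.1 (hfl G hG k u (hus.trans hu) t ht htc)).1
    have h2 : V d (Real.log m) (Real.log d) (2 * L) k u ≤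
        (∑ v ∈ W d t, V d (Real.log m) (Real.log d) (2 * L) (k - t)
          (u + sg v * Real.log m - t * Real.log d)) / (d : ℝ) ^ t := by
      rcases lt_or_ge k t with hk | hk
      · have h3 : ∀ v ∈ W d t, V d (Real.log m) (Real.log d) (2 * L) (k - t)
            (u + sg v * Real.log m - t * Real.log d) = 1 := fun v _ => V_neg (by omega) _
        rw [Finset.sum_congr rfl h3, Finset.sum_const, card_W, nsmul_eq_mul, mul_one]
        push_cast
        rw [div_self hdt.ne']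
        exact V_le_one (by omega) k u
      · obtain ⟨n, rfl⟩ := Int.eq_ofNat_of_zero_le (by omega : 0 ≤ k)
        exact (V_markov (by omega) (by exact_mod_cast hk) u).le
    have h3 := mul_le_mul_of_nonneg_left h2 hc₁
    rw [Finset.sum_sub_distrib, ← Finset.mul_sum, sub_div, mul_div_assoc]
    linarith
  · intro k x h1 h2
    rcases lt_or_ge k 0 with hk | hk
    · rw [V_neg hk]
      have h3 : FK d m r z G k x = fd G (Real.exp x) := by
        unfold FK
        rw [SK_neg hk, Set.univ_inter]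
      rw [h3]
      have := hG1 x h1
      linarith
    · obtain ⟨n, rfl⟩ := Int.eq_ofNat_of_zero_le hk
      have h3 := hexpo (2 * L) n x
      have h4 : Real.exp (-(c₀ * (2 * L - x))) ≤ Real.exp (-(c₀ * L)) := by
        apply Real.exp_le_exp.2
        have := mul_le_mul_of_nonneg_left (by linarith : L ≤ 2 * L - x) hc₀.le
        linarith
      have h5 : c₁ * V d (Real.log m) (Real.log d) (2 * L) n x ≤ 2 * Real.exp (-(c₀ * L)) :=
        mul_le_mul hc₂ (h3.trans h4) (V_nonneg _ _) (by norm_num)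
      have h6 := FK_nonneg (d := d) (m := m) (r := r) z G n x
      linarith

end Pool.Agent.Helper8.CL
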