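import Pool.Agent.Helper8.CL.Walk
import Pool.Agent.Helper8.ND.Shift
import Mathlib.Probability.CentralLimitTheorem
import Mathlib.MeasureTheory.Measure.LevyConvergence

/-!
# The central limit theorem for the walk

From Mathlib's Taylor expansion of characteristic functions and Lévy's theorem.
-/

set_option autoImplicit false

namespace Pool.Agent.Helper8.CL

open Pool.Agent.Helper52.Tao Pool.Agent.Helper8.ND MeasureTheory ProbabilityTheory Filter Topology

theorem sum_pow_sg_c (d t : ℕ) (x : ℂ) (hd : 1 ≤ d) :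
    ∑ w ∈ W d t, x ^ sg w = (1 + ((d : ℂ) - 1) * x) ^ t := by
  obtain ⟨e, rfl⟩ : ∃ e, d = e + 1 := ⟨d - 1, by omega⟩
  induction t with
  | zero => rw [sum_W_zero]; simp
  | succ t ih =>
    rw [sum_W_succ]
    simp only [sg_cons, pow_add]
    simp_rw [← Finset.mul_sum, ih]
    rw [← Finset.sum_mul, pow_one, mul_comm]
    congr 1
    rw [Finset.sum_range_succ']
    simp [nz]
    ring

/-- A finite sum of point masses. -/
noncomputable def fm {ι : Type*} (s : Finset ι) (c : ℝ) (y : ι → ℝ) : Measure ℝ :=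
  ∑ v ∈ s, ENNReal.ofReal c • Measure.dirac (y v)

section fm

variable {ι E : Type*} [NormedAddCommGroup E] [NormedSpace ℝ E] [CompleteSpace E]

omit [NormedSpace ℝ E] [CompleteSpace E] in
theorem integrable_pt (c : ℝ) (y : ℝ) (f : ℝ → E) :
    Integrable f (ENNReal.ofReal c • Measure.dirac y) :=
  (integrable_dirac (by simp)).smul_measure ENNReal.ofReal_ne_top

theorem integral_fm (s : Finset ι) {c : ℝ} (hc : 0 ≤ c) (y : ι → ℝ) (f : ℝ → E) :
    ∫ x, f x ∂(fm s c y) = ∑ v ∈ s, c • f (y v) := by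
  unfold fm
  rw [integral_finsetSum_measure fun v _ => integrable_pt c (y v) f]
  refine Finset.sum_congr rfl fun v _ => ?_
  rw [integral_smul_measure, integral_dirac, ENNReal.toReal_ofReal hc]

open Classical in
theorem fm_apply (s : Finset ι) {c : ℝ} (hc : 0 ≤ c) (y : ι → ℝ) {A : Set ℝ}
    (hA : MeasurableSet A) :
    fm s c y A = ENNReal.ofReal (∑ v ∈ s, c * (if y v ∈ A then 1 else 0)) := by
  rw [ENNReal.ofReal_sum_of_nonneg (fun v _ => by split_ifs <;> simp [hc])]
  unfold fm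
  rw [Measure.finsetSum_apply]
  refine Finset.sum_congr rfl fun v _ => ?_
  rw [Measure.smul_apply, Measure.dirac_apply' _ hA]
  by_cases h : y v ∈ A
  · simp [h]
  · simp [h]

theorem prob_fm (s : Finset ι) {c : ℝ} (hc : 0 ≤ c) (y : ι → ℝ) (h : (s.card : ℝ) * c = 1) :
    IsProbabilityMeasure (fm s c y) := by
  constructor
  classical
  rw [fm_apply s hc y MeasurableSet.univ]
  simp [h]

end fm

/-- The normalized steps. -/
noncomputable def ua (d : ℕ) : ℝ := (1 / (d : ℝ)) / Real.sqrt (vv d)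

noncomputable def ub (d : ℕ) : ℝ := -((1 - 1 / (d : ℝ)) / Real.sqrt (vv d))

/-- The law of the normalized step. -/
noncomputable def nu (d : ℕ) : Measure ℝ :=
  fm (Finset.range d) (1 / (d : ℝ)) (fun i => if i = 0 then ub d else ua d)

theorem sum_range_step {E : Type*} [AddCommGroup E] [Module ℝ E] {d : ℕ} (hd : 1 ≤ d) (a b : E) :
    ∑ i ∈ Finset.range d, (1 / (d : ℝ)) • (if i = 0 then b else a) =
      (1 / (d : ℝ)) • b + (1 - 1 / (d : ℝ)) • a := by
  obtain ⟨e, rfl⟩ : ∃ e, d = e + 1 := ⟨d - 1, by omega⟩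
  rw [Finset.sum_range_succ']
  simp only [if_neg (Nat.succ_ne_zero _), if_pos]
  rw [Finset.sum_const, Finset.card_range, ← Nat.cast_smul_eq_nsmul ℝ, smul_smul, add_comm]
  congr 2
  have : ((e : ℝ) + 1) ≠ 0 := by positivity
  push_cast
  field_simp
  ring

theorem prob_nu {d : ℕ} (hd : 2 ≤ d) : IsProbabilityMeasure (nu d) := by
  apply prob_fm _ (by positivity)
  have : (0 : ℝ) < d := by exact_mod_cast (by omega : 0 < d)
  rw [Finset.card_range]
  field_simp

theorem mean_nu {d : ℕ} (hd : 2 ≤ d) : ∫ x, (id : ℝ → ℝ) x ∂(nu d) = 0 := by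
  unfold nu
  rw [integral_fm _ (by positivity)]
  simp only [id]
  rw [sum_range_step (by omega) (ua d) (ub d)]
  simp only [smul_eq_mul, ua, ub]
  ring

theorem var_nu {d : ℕ} (hd : 2 ≤ d) : ∫ x, ((id : ℝ → ℝ) ^ 2) x ∂(nu d) = 1 := by
  unfold nu
  rw [integral_fm _ (by positivity)]
  have h1 : ∀ i ∈ Finset.range d, (1 / (d : ℝ)) • ((id : ℝ → ℝ) ^ 2) (if i = 0 then ub d else ua d) =
      (1 / (d : ℝ)) • (if i = 0 then (ub d) ^ 2 else (ua d) ^ 2) := by
    intro i _
    split_ifs <;> simp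
  rw [Finset.sum_congr rfl h1, sum_range_step (by omega) ((ua d) ^ 2) ((ub d) ^ 2)]
  have hv : 0 < vv d := vv_pos hd
  simp only [smul_eq_mul, ua, ub]
  rw [neg_sq, div_pow, div_pow, Real.sq_sqrt hv.le]
  have e : vv d = (1 - 1 / (d : ℝ)) * (1 / d) := rfl
  have h2 : 1 / (d : ℝ) * ((1 - 1 / (d : ℝ)) ^ 2 / vv d) + (1 - 1 / (d : ℝ)) * ((1 / (d : ℝ)) ^ 2 / vv d) =
      ((1 - 1 / (d : ℝ)) * (1 / d)) / vv d := by ring
  rw [h2, ← e, div_self hv.ne']

theorem charFun_nu {d : ℕ} (hd : 2 ≤ d) (s : ℝ) : charFun (nu d) s =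
    (Complex.exp (s * ub d * Complex.I) + ((d : ℂ) - 1) * Complex.exp (s * ua d * Complex.I)) / d := by
  unfold nu
  rw [charFun_apply_real, integral_fm _ (by positivity)]
  have h1 : ∀ i ∈ Finset.range d, (1 / (d : ℝ)) •
      Complex.exp (s * ((if i = 0 then ub d else ua d : ℝ) : ℂ) * Complex.I) =
      (1 / (d : ℝ)) • (if i = 0 then Complex.exp (s * ub d * Complex.I)
        else Complex.exp (s * ua d * Complex.I)) := by
    intro i _
    split_ifs <;> rfl
  rw [Finset.sum_congr rfl h1, sum_range_step (by omega)]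
  have hd0 : (d : ℂ) ≠ 0 := by exact_mod_cast (by omega : d ≠ 0)
  simp only [Complex.real_smul]
  push_cast
  field_simp

/-- The law of the normalized walk. -/
noncomputable def rho (d k : ℕ) (x : ℝ) : Measure ℝ :=
  fm (W d k) (1 / (d : ℝ) ^ k)
    (fun v => ((sg v : ℝ) - (1 - 1 / (d : ℝ)) * k) / (Real.sqrt k * Real.sqrt (vv d)) - x)

theorem prob_rho {d : ℕ} (hd : 2 ≤ d) (k : ℕ) (x : ℝ) : IsProbabilityMeasure (rho d k x) := by
  apply prob_fm _ (by positivity)
  have : (0 : ℝ) < d := by exact_mod_cast (by omega : 0 < d)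
  rw [card_W]
  push_cast
  field_simp

theorem charFun_rho {d : ℕ} (hd : 2 ≤ d) {k : ℕ} (hk : 1 ≤ k) (x s : ℝ) : charFun (rho d k x) s =
    Complex.exp (-(s * x * Complex.I)) * (charFun (nu d) ((Real.sqrt k)⁻¹ * s)) ^ k := by
  have hd0 : (0 : ℝ) < d := by exact_mod_cast (by omega : 0 < d)
  have hv : 0 < Real.sqrt (vv d) := Real.sqrt_pos.2 (vv_pos hd)
  have hk0 : 0 < Real.sqrt (k : ℝ) := Real.sqrt_pos.2 (by exact_mod_cast hk)
  rw [charFun_nu hd]
  unfold rho
  rw [charFun_apply_real, integral_fm _ (by positivity)]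
  set σ : ℝ := (Real.sqrt k)⁻¹ * s with hσ
  set A := Complex.exp (σ * ua d * Complex.I) with hA
  set B := Complex.exp (σ * ub d * Complex.I) with hB
  have hB0 : B ≠ 0 := Complex.exp_ne_zero _
  have h1 : ∀ v ∈ W d k, (1 / (d : ℝ) ^ k) • Complex.exp (s *
      ((((sg v : ℝ) - (1 - 1 / (d : ℝ)) * k) / (Real.sqrt k * Real.sqrt (vv d)) - x : ℝ) : ℂ) *
        Complex.I) =
      (1 / (d : ℂ) ^ k) * Complex.exp (-(s * x * Complex.I)) * B ^ k * (A / B) ^ sg v := by
    intro v _
    have e1 : (A / B) = Complex.exp (σ * (ua d - ub d) * Complex.I) := by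
      rw [hA, hB, ← Complex.exp_sub]
      congr 1
      ring
    rw [e1, hB, ← Complex.exp_nat_mul, ← Complex.exp_nat_mul, Complex.real_smul]
    have e2 : s * (((sg v : ℝ) - (1 - 1 / (d : ℝ)) * k) / (Real.sqrt k * Real.sqrt (vv d)) - x) =
        -(s * x) + (k * (σ * ub d) + sg v * (σ * (ua d - ub d))) := by
      rw [hσ, ua, ub]
      field_simp
      ring
    have e3 := congrArg (fun y : ℝ => (y : ℂ) * Complex.I) e2
    push_cast at e3
    have key : Complex.exp (-(s * x * Complex.I)) * (Complex.exp (k * (σ * ub d * Complex.I)) *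
        Complex.exp (sg v * (σ * (ua d - ub d) * Complex.I))) = Complex.exp (s *
      ((((sg v : ℝ) - (1 - 1 / (d : ℝ)) * k) / (Real.sqrt k * Real.sqrt (vv d)) - x : ℝ) : ℂ) *
        Complex.I) := by
      rw [← Complex.exp_add, ← Complex.exp_add]
      congr 1
      push_cast
      rw [e3]
      ring
    rw [← key]
    push_cast
    ring
  rw [Finset.sum_congr rfl h1, ← Finset.mul_sum, sum_pow_sg_c d k _ (by omega)]
  have e4 : (B + ((d : ℂ) - 1) * A) / d = (1 / d) * (B * (1 + ((d : ℂ) - 1) * (A / B))) := by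
    field_simp
  rw [e4, mul_pow, mul_pow, div_pow, one_pow]
  ring

theorem rho_Ioi {d : ℕ} (hd : 2 ≤ d) {μ lam θ : ℝ} (hμ : 0 < μ) {k : ℕ} (hk : 1 ≤ k) (u : ℝ) :
    rho d k ((θ - u + k * (lam - (1 - 1 / (d : ℝ)) * μ)) / (μ * (Real.sqrt k * Real.sqrt (vv d))))
      (Set.Ioi 0) = ENNReal.ofReal (V d μ lam θ k u) := by
  classical
  have hv : 0 < Real.sqrt (vv d) := Real.sqrt_pos.2 (vv_pos hd)
  have hk0 : 0 < Real.sqrt (k : ℝ) := Real.sqrt_pos.2 (by exact_mod_cast hk)
  unfold rho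
  rw [fm_apply _ (by positivity) _ measurableSet_Ioi, V_nat]
  congr 1
  rw [Finset.sum_div]
  refine Finset.sum_congr rfl fun v _ => ?_
  have h1 : ((((sg v : ℝ) - (1 - 1 / (d : ℝ)) * k) / (Real.sqrt k * Real.sqrt (vv d)) -
      (θ - u + k * (lam - (1 - 1 / (d : ℝ)) * μ)) / (μ * (Real.sqrt k * Real.sqrt (vv d)))) ∈
        Set.Ioi (0 : ℝ)) ↔ θ < u + sg v * μ - k * lam := by
    have e : ((sg v : ℝ) - (1 - 1 / (d : ℝ)) * k) / (Real.sqrt k * Real.sqrt (vv d)) -
      (θ - u + k * (lam - (1 - 1 / (d : ℝ)) * μ)) / (μ * (Real.sqrt k * Real.sqrt (vv d))) =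
      (u + sg v * μ - k * lam - θ) / (μ * (Real.sqrt k * Real.sqrt (vv d))) := by
      field_simp
      ring
    rw [e, Set.mem_Ioi]
    constructor
    · intro h
      have h2 : 0 < μ * (Real.sqrt k * Real.sqrt (vv d)) := by positivity
      have := (div_pos_iff_of_pos_right h2).1 h
      linarith
    · intro h
      have : 0 < u + sg v * μ - k * lam - θ := by linarith
      positivity
  simp only [h1]
  split_ifs <;> simp

/-- The central limit theorem for `V`. -/
theorem clt_seq {d : ℕ} (hd : 2 ≤ d) {μ lam θ : ℝ} (hμ : 0 < μ) {k : ℕ → ℕ} {u : ℕ → ℝ} {y : ℝ}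
    (hk : Tendsto k atTop atTop)
    (hx : Tendsto (fun n => (θ - u n + k n * (lam - (1 - 1 / (d : ℝ)) * μ)) /
      (μ * (Real.sqrt (k n) * Real.sqrt (vv d)))) atTop (𝓝 y)) :
    Tendsto (fun n => V d μ lam θ (k n) (u n)) atTop
      (𝓝 ((gaussianReal 0 1).real (Set.Ioi y))) := by
  set x : ℕ → ℝ := fun n => (θ - u n + k n * (lam - (1 - 1 / (d : ℝ)) * μ)) /
      (μ * (Real.sqrt (k n) * Real.sqrt (vv d))) with hxdef
  have := prob_nu hd
  have hpr : ∀ n, IsProbabilityMeasure (rho d (k n) (x n)) := fun n => prob_rho hd _ _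
  -- weak convergence
  let P : ℕ → ProbabilityMeasure ℝ := fun n => ⟨rho d (k n) (x n), hpr n⟩
  let Q : ProbabilityMeasure ℝ := ⟨gaussianReal (-y) 1, inferInstance⟩
  have hweak : Tendsto P atTop (𝓝 Q) := by
    apply ProbabilityMeasure.tendsto_of_tendsto_charFun
    intro s
    have h1 : Tendsto (fun n => charFun (nu d) ((Real.sqrt (k n : ℕ))⁻¹ * s) ^ (k n)) atTop
        (𝓝 (Complex.exp (-s ^ 2 / 2))) := by
      have h2 := tendsto_charFun_inv_sqrt_mul_pow (P := nu d) (X := id) aemeasurable_id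
        (mean_nu hd) (var_nu hd) s
      rw [Measure.map_id] at h2
      exact h2.comp hk
    have h2 : Tendsto (fun n => Complex.exp (-(s * x n * Complex.I))) atTop
        (𝓝 (Complex.exp (-(s * y * Complex.I)))) := by
      apply (Complex.continuous_exp.tendsto _).comp
      apply Tendsto.neg
      apply Tendsto.mul_const
      apply Tendsto.const_mul
      exact (Complex.continuous_ofReal.tendsto _).comp hx
    have h3 := h2.mul h1
    have e : charFun (gaussianReal (-y) 1) s =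
        Complex.exp (-(s * y * Complex.I)) * Complex.exp (-s ^ 2 / 2) := by
      rw [charFun_gaussianReal, ← Complex.exp_add]
      congr 1
      push_cast
      ring
    change Tendsto (fun n => charFun (rho d (k n) (x n)) s) atTop (𝓝 (charFun (gaussianReal (-y) 1) s))
    rw [e]
    refine h3.congr' ?_
    filter_upwards [hk.eventually_ge_atTop 1] with n hn
    exact (charFun_rho hd hn _ _).symm
  have h4 := ProbabilityMeasure.tendsto_measure_of_null_frontier_of_tendsto' hweak
    (E := Set.Ioi 0) (by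
      rw [frontier_Ioi]
      have := nullSingletonClass_gaussianReal (μ := -y) (v := 1) one_ne_zero
      exact measure_singleton (μ := gaussianReal (-y) 1) 0)
  have h5 : (gaussianReal (-y) 1) (Set.Ioi 0) = (gaussianReal 0 1) (Set.Ioi y) := by
    have e1 : gaussianReal (-y) 1 = (gaussianReal 0 1).map (· + (-y)) := by
      rw [gaussianReal_map_add_const, zero_add]
    rw [e1, Measure.map_apply (by fun_prop) measurableSet_Ioi]
    congr 1
    ext w
    simp
  have h6 : Tendsto (fun n => ((rho d (k n) (x n)) (Set.Ioi 0)).toReal) atTop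
      (𝓝 ((gaussianReal 0 1).real (Set.Ioi y))) := by
    rw [Measure.real, ← h5]
    exact (ENNReal.tendsto_toReal (measure_ne_top (gaussianReal (-y) 1) _)).comp h4
  refine h6.congr' ?_
  filter_upwards [hk.eventually_ge_atTop 1] with n hn
  rw [hxdef]
  simp only
  rw [rho_Ioi hd hμ hn, ENNReal.toReal_ofReal (V_nonneg _ _)]

end Pool.Agent.Helper8.CL
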