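import Pool.Agent.Helper8.CL.Clt

/-!
# The central limit theorem for the walk, real variable
-/

set_option autoImplicit false

namespace Pool.Agent.Helper8.CL

open Pool.Agent.Helper52.Tao Pool.Agent.Helper8.ND MeasureTheory ProbabilityTheory Filter Topology

/-- The threshold `⌊u / γ + y σ √u⌋`. -/
noncomputable def kk (γ ys u : ℝ) : ℤ := ⌊u / γ + ys * Real.sqrt u⌋

theorem kk_le (γ ys u : ℝ) : (kk γ ys u : ℝ) ≤ u / γ + ys * Real.sqrt u := Int.floor_le _

theorem lt_kk (γ ys u : ℝ) : u / γ + ys * Real.sqrt u - 1 < kk γ ys u := Int.sub_one_lt_floor _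

theorem tendsto_kk_div {γ : ℝ} (hγ : 0 < γ) (ys : ℝ) (j : ℤ) :
    Tendsto (fun u : ℝ => ((kk γ ys u + j : ℤ) : ℝ) / u) atTop (𝓝 (1 / γ)) := by
  have h1 : Tendsto (fun u : ℝ => 1 / γ + ys * (Real.sqrt u)⁻¹) atTop (𝓝 (1 / γ)) := by
    have h2 : Tendsto (fun u : ℝ => ys * (Real.sqrt u)⁻¹) atTop (𝓝 (ys * 0)) :=
      (tendsto_inv_atTop_zero.comp Real.tendsto_sqrt_atTop).const_mul ys
    have h3 := h2.const_add (1 / γ)
    rwa [mul_zero, add_zero] at h3
  have hlo : Tendsto (fun u : ℝ => (1 / γ + ys * (Real.sqrt u)⁻¹) + (j - 1) * u⁻¹) atTop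
      (𝓝 (1 / γ)) := by
    have h3 := h1.add (tendsto_inv_atTop_zero.const_mul ((j : ℝ) - 1))
    rwa [mul_zero, add_zero] at h3
  have hup : Tendsto (fun u : ℝ => (1 / γ + ys * (Real.sqrt u)⁻¹) + j * u⁻¹) atTop
      (𝓝 (1 / γ)) := by
    have h3 := h1.add (tendsto_inv_atTop_zero.const_mul (j : ℝ))
    rwa [mul_zero, add_zero] at h3
  refine tendsto_of_tendsto_of_tendsto_of_le_of_le' hlo hup ?_ ?_
  · filter_upwards [eventually_gt_atTop 0] with u hu
    have hs : 0 < Real.sqrt u := Real.sqrt_pos.2 hu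
    have e : (1 / γ + ys * (Real.sqrt u)⁻¹) + (j - 1) * u⁻¹ =
        (u / γ + ys * Real.sqrt u - 1 + j) / u := by
      have h4 : Real.sqrt u * Real.sqrt u = u := Real.mul_self_sqrt hu.le
      have h5 : (Real.sqrt u)⁻¹ = Real.sqrt u / u := by
        field_simp
        rw [← h4]
        rw [Real.sqrt_mul_self hs.le]
        ring
      rw [h5]
      field_simp
      ring
    rw [e]
    push_cast
    apply div_le_div_of_nonneg_right _ hu.le
    have := lt_kk γ ys u
    linarith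
  · filter_upwards [eventually_gt_atTop 0] with u hu
    have hs : 0 < Real.sqrt u := Real.sqrt_pos.2 hu
    have e : (1 / γ + ys * (Real.sqrt u)⁻¹) + j * u⁻¹ =
        (u / γ + ys * Real.sqrt u + j) / u := by
      have h4 : Real.sqrt u * Real.sqrt u = u := Real.mul_self_sqrt hu.le
      have h5 : (Real.sqrt u)⁻¹ = Real.sqrt u / u := by
        field_simp
        rw [← h4]
        rw [Real.sqrt_mul_self hs.le]
        ring
      rw [h5]
      field_simp
    rw [e]
    push_cast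
    apply div_le_div_of_nonneg_right _ hu.le
    have := kk_le γ ys u
    linarith

theorem tendsto_kk {γ : ℝ} (hγ : 0 < γ) (ys : ℝ) (j : ℤ) :
    Tendsto (fun u : ℝ => ((kk γ ys u + j : ℤ) : ℝ)) atTop atTop := by
  have h1 := (tendsto_kk_div hγ ys j).pos_mul_atTop (by positivity : 0 < 1 / γ) tendsto_id
  refine h1.congr' ?_
  filter_upwards [eventually_gt_atTop 0] with u hu
  simp only [id]
  field_simp

theorem clt {d : ℕ} (hd : 2 ≤ d) {μ lam γ : ℝ} (hμ : 0 < μ)
    (hγdef : γ = lam - (1 - 1 / (d : ℝ)) * μ) (hγ : 0 < γ) (θ y : ℝ) (j : ℤ) :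
    Tendsto (fun u : ℝ => V d μ lam θ
      (kk γ (y * (μ * Real.sqrt (vv d) / (γ * Real.sqrt γ))) u + j) u) atTop
      (𝓝 ((gaussianReal 0 1).real (Set.Ioi y))) := by
  set ys := y * (μ * Real.sqrt (vv d) / (γ * Real.sqrt γ)) with hys
  have hv : 0 < Real.sqrt (vv d) := Real.sqrt_pos.2 (vv_pos hd)
  have hsγ : 0 < Real.sqrt γ := Real.sqrt_pos.2 hγ
  have hK := tendsto_kk hγ ys j
  have hKd := tendsto_kk_div hγ ys j
  -- the real variable versions
  have hev : ∀ᶠ u : ℝ in atTop, ((((kk γ ys u + j).toNat : ℕ) : ℤ) = kk γ ys u + j) := by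
    filter_upwards [hK.eventually_ge_atTop 0] with u hu
    exact Int.toNat_of_nonneg (by exact_mod_cast hu)
  have hk : Tendsto (fun u : ℝ => (kk γ ys u + j).toNat) atTop atTop := by
    rw [← tendsto_natCast_atTop_iff (R := ℝ)]
    refine hK.congr' ?_
    filter_upwards [hev] with u hu
    rw [← hu]
    push_cast
    rfl
  have hx : Tendsto (fun u : ℝ => (θ - u + (kk γ ys u + j).toNat * (lam - (1 - 1 / (d : ℝ)) * μ)) /
      (μ * (Real.sqrt ((kk γ ys u + j).toNat) * Real.sqrt (vv d)))) atTop (𝓝 y) := by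
    have hE : Tendsto (fun u : ℝ => (θ - u + ((kk γ ys u + j : ℤ) : ℝ) * γ - γ * ys * Real.sqrt u) *
        (Real.sqrt u)⁻¹) atTop (𝓝 0) := by
      have hz : Tendsto (fun u : ℝ => (Real.sqrt u)⁻¹) atTop (𝓝 0) :=
        tendsto_inv_atTop_zero.comp Real.tendsto_sqrt_atTop
      refine bdd_le_mul_tendsto_zero' (C := |θ| + γ * (|(j : ℝ)| + 1)) ?_ hz
      refine Eventually.of_forall fun u => ?_
      have h1 := kk_le γ ys u
      have h2 := lt_kk γ ys u
      have e : θ - u + ((kk γ ys u + j : ℤ) : ℝ) * γ - γ * ys * Real.sqrt u =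
          θ + γ * ((kk γ ys u - (u / γ + ys * Real.sqrt u)) + j) := by
        push_cast
        field_simp
        ring
      rw [e]
      refine (abs_add_le _ _).trans ?_
      rw [abs_mul, abs_of_pos hγ]
      gcongr
      refine (abs_add_le _ _).trans ?_
      have h3 : |(kk γ ys u : ℝ) - (u / γ + ys * Real.sqrt u)| ≤ 1 := by
        rw [abs_le]; constructor <;> linarith
      linarith
    have hsq : Tendsto (fun u : ℝ => Real.sqrt (((kk γ ys u + j : ℤ) : ℝ) / u)) atTop
        (𝓝 (Real.sqrt (1 / γ))) := (Real.continuous_sqrt.tendsto _).comp hKd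
    have h1 : Tendsto (fun u : ℝ => ((θ - u + ((kk γ ys u + j : ℤ) : ℝ) * γ -
        γ * ys * Real.sqrt u) * (Real.sqrt u)⁻¹ + γ * ys) /
        (μ * (Real.sqrt (((kk γ ys u + j : ℤ) : ℝ) / u) * Real.sqrt (vv d)))) atTop
        (𝓝 ((0 + γ * ys) / (μ * (Real.sqrt (1 / γ) * Real.sqrt (vv d))))) := by
      apply Tendsto.div (hE.add_const _) ((hsq.mul_const _).const_mul _)
      have : 0 < Real.sqrt (1 / γ) := Real.sqrt_pos.2 (by positivity)
      positivity
    have e1 : (0 + γ * ys) / (μ * (Real.sqrt (1 / γ) * Real.sqrt (vv d))) = y := by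
      rw [Real.sqrt_div zero_le_one, Real.sqrt_one, hys]
      field_simp
      ring
    rw [e1] at h1
    refine h1.congr' ?_
    filter_upwards [hev, eventually_gt_atTop 0, hK.eventually_gt_atTop 0] with u hu hu0 hK0
    have hu' : (((kk γ ys u + j).toNat : ℕ) : ℝ) = ((kk γ ys u + j : ℤ) : ℝ) := by
      rw [← hu]; push_cast; rfl
    have hs : 0 < Real.sqrt u := Real.sqrt_pos.2 hu0
    rw [hu', ← hγdef, Real.sqrt_div hK0.le]
    have hsK : 0 < Real.sqrt ((kk γ ys u + j : ℤ) : ℝ) := Real.sqrt_pos.2 hK0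
    field_simp
    ring
  refine tendsto_of_seq_tendsto fun v hvt => ?_
  have h1 := clt_seq hd hμ (θ := θ) (u := v) (y := y) (hk.comp hvt) (hx.comp hvt)
  refine h1.congr' ?_
  filter_upwards [hvt.eventually hev] with n hn
  simp only [Function.comp]
  rw [hn]

end Pool.Agent.Helper8.CL
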