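import Pool.Agent.Helper8.ND.Sets

/-!
# The flow of arbitrary sets

For every set `G` the density in `[a, 2a)` of the integers `n` with `T^(2t)(n) ∈ G` is, up to
`O(t ^ (-8))`, the average over the words `v` of length `t` of the densities in `[a_v, 2 a_v)`,
`a_v = a m ^ sg v / d ^ t`, of the integers with `T^(t)(n) ∈ G`. Adapted from
`Pool.Agent.Helper52.Tao.FL` (helper52).
-/

set_option autoImplicit false

namespace Pool.Agent.Helper8.CL

open Pool.Agent.Helper68.Moeller Pool.Agent.Helper52.Tao Pool.Agent.Helper8.ND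

/-- The integers with `T^(t)(n) ∈ G`. -/
def pre (d m : ℕ) (r : ℤ → ℤ) (t : ℕ) (G : Set ℤ) : Set ℤ := {n | (T d m r)^[t] n ∈ G}

theorem pre_compl (d m : ℕ) (r : ℤ → ℤ) (t : ℕ) (G : Set ℤ) :
    (pre d m r t G)ᶜ = pre d m r t Gᶜ := rfl

/-- The flow inequality. -/
theorem flowg_le {d m : ℕ} (hd : 2 ≤ d) (hdm : d < m) (hco : Nat.Coprime m d) {r : ℤ → ℤ}
    (hr : Admissible d m r) (h1 : Mixing d m r) (A : ℝ) :
    ∃ C : ℝ, 0 < C ∧ ∀ t : ℕ, 1 ≤ t → ∀ a : ℝ,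
      C * ((d : ℝ) * m) ^ (8 * t) ≤ a → ∀ G : Set ℤ,
        fd (pre d m r (t + t) G) a ≤
          (∑ v ∈ W d t, fd (pre d m r t G) (a * (m : ℝ) ^ sg v / (d : ℝ) ^ t)) /
            (d : ℝ) ^ t + C * (t : ℝ) ^ (-A) := by
  obtain ⟨C0, hC0, hmix⟩ := h1 (|A| + 1)
  obtain ⟨B, hB⟩ := FL_exists_B d r
  obtain ⟨C3, hC3, hexp⟩ := exists_C3 |A|
  have h10 : (0 : ℝ) < (10 : ℝ) ^ (|A| + 1) := by positivity
  have h5 : (0 : ℝ) < (5 : ℝ) ^ |A| := by positivity
  refine ⟨5 * C3 + 10 * C0 * (10 : ℝ) ^ (|A| + 1) + 4 * (B + 1) + 2 * (5 : ℝ) ^ |A|,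
    by positivity, ?_⟩
  set C : ℝ := 5 * C3 + 10 * C0 * (10 : ℝ) ^ (|A| + 1) + 4 * (B + 1) + 2 * (5 : ℝ) ^ |A| with hCdef
  have hCB : 4 * ((B : ℝ) + 1) ≤ C := by
    have : (0 : ℝ) < 10 * C0 * (10 : ℝ) ^ (|A| + 1) := by positivity
    rw [hCdef]; linarith
  have hC4 : 4 ≤ C := by
    have : (0 : ℝ) ≤ (B : ℝ) := by positivity
    linarith
  intro t ht a ha G
  have ht1 : (1 : ℝ) ≤ t := by exact_mod_cast ht
  have ht0 : (0 : ℝ) < t := by linarith
  have hd0 : 0 < d := by omega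
  have hm0 : 0 < m := by omega
  have hd1R : (1 : ℝ) ≤ d := by exact_mod_cast (by omega : 1 ≤ d)
  have hm1R : (1 : ℝ) ≤ m := by exact_mod_cast (by omega : 1 ≤ m)
  have hd2R : (2 : ℝ) ≤ d := by exact_mod_cast hd
  have hm2R : (2 : ℝ) ≤ m := by exact_mod_cast (by omega : 2 ≤ m)
  obtain ⟨D, hD⟩ : ∃ D : ℝ, D = (d : ℝ) ^ t := ⟨_, rfl⟩
  obtain ⟨M, hM⟩ : ∃ M : ℝ, M = (m : ℝ) ^ t := ⟨_, rfl⟩
  have hD1 : 1 ≤ D := hD ▸ one_le_pow₀ hd1R
  have hM1 : 1 ≤ M := hM ▸ one_le_pow₀ hm1R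
  have hD0 : 0 < D := by linarith
  have hM0 : 0 < M := by linarith
  have hB0 : (0 : ℝ) ≤ (B : ℝ) := by positivity
  have hDM1 : 1 ≤ D * M := one_le_mul_of_one_le_of_one_le hD1 hM1
  have hP8 : ((d : ℝ) * m) ^ (8 * t) = (D * M) ^ 8 := by
    rw [hD, hM, ← mul_pow, ← pow_mul, mul_comm 8 t]
  rw [hP8] at ha
  have hC0' : 0 < C := by linarith
  have hP1 : ∀ n : ℕ, 1 ≤ (D * M) ^ n := fun n => one_le_pow₀ hDM1
  have ha1 : C * (D * M) ^ 2 ≤ a := by
    refine le_trans ?_ ha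
    exact mul_le_mul_of_nonneg_left (pow_le_pow_right₀ hDM1 (by norm_num)) (by positivity)
  have haDM2 : (D * M) ^ 2 ≤ a := by
    refine le_trans ?_ ha1
    exact le_mul_of_one_le_left (by positivity) (by linarith)
  have haone : 1 ≤ a := (hP1 2).trans haDM2
  have ha0 : 0 < a := by linarith
  have hDDa : D * D ≤ a := by
    refine le_trans ?_ haDM2
    rw [mul_pow, sq D]
    exact le_mul_of_one_le_right (by positivity) (one_le_pow₀ hM1)
  have hTA : (t : ℝ) ^ (-|A|) ≤ (t : ℝ) ^ (-A) :=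
    Real.rpow_le_rpow_of_exponent_le ht1 (neg_le_neg (le_abs_self A))
  have hav : ∀ v : List ℕ, 0 < a * (m : ℝ) ^ sg v / (d : ℝ) ^ t := fun v => by positivity
  have hsum0 : 0 ≤ (∑ v ∈ W d t, fd (pre d m r t G) (a * (m : ℝ) ^ sg v / (d : ℝ) ^ t)) /
      (d : ℝ) ^ t := by
    apply div_nonneg _ (by positivity)
    exact Finset.sum_nonneg fun v _ => fd_nonneg (pre d m r t G) (hav v).le
  by_cases ht5 : t < 5
  · -- small `t`
    have h2 := fd_le_two (pre d m r (t + t) G) haone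
    have h3 : ((5 : ℝ) ^ |A|)⁻¹ ≤ (t : ℝ) ^ (-|A|) := by
      rw [← Real.rpow_neg (by norm_num)]
      apply Real.rpow_le_rpow_of_nonpos ht0
      · exact_mod_cast ht5.le
      · exact neg_nonpos.mpr (abs_nonneg A)
    have h4 : 2 ≤ C * (t : ℝ) ^ (-A) := by
      have h6 : 2 * (5 : ℝ) ^ |A| ≤ C := by
        have : (0 : ℝ) < 10 * C0 * (10 : ℝ) ^ (|A| + 1) := by positivity
        rw [hCdef]; linarith
      calc (2 : ℝ) = 2 * (5 : ℝ) ^ |A| * ((5 : ℝ) ^ |A|)⁻¹ := by field_simp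
        _ ≤ C * (t : ℝ) ^ (-A) := by
            apply mul_le_mul h6 (h3.trans hTA) (by positivity) hC0'.le
    linarith
  push Not at ht5
  -- large `t`
  set k := t / 5 with hk
  have hk1 : 1 ≤ k := by omega
  have hk5 : 5 * k ≤ t := by omega
  have hk10 : t ≤ 10 * k := by omega
  obtain ⟨e, he⟩ := exists_e hco (t + t)
  set q : ℝ := (k : ℝ) ^ (-(|A| + 1)) with hq
  have hk0 : (0 : ℝ) < k := by exact_mod_cast hk1
  have hq0 : 0 < q := Real.rpow_pos_of_pos hk0 _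
  have hosc : ∀ L ≤ t + t, ∀ s, k ≤ s → s ≤ L → Osc d m r e L s s k ≤ C0 * (d : ℝ) ^ L * q := by
    intro L hL s h2 h3
    exact hmix s k hk1 h2 e ((pow_dvd_pow _ (h3.trans hL)).trans he) L s le_rfl
  -- (1)
  have e1 : a * fd (pre d m r (t + t) G) a ≤ SS d m r e G a (t + t) +
      2 * (d : ℝ) ^ (t + t) * (B * (m : ℝ) ^ (t + t) + 1) := by
    have h2 := card_image hd hdm hco hr hB he G ha0
    have h3 := (abs_le.mp h2).2
    have h4 : a * fd (pre d m r (t + t) G) a =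
        (({n : ℤ | a ≤ n ∧ (n : ℝ) < 2 * a ∧ (T d m r)^[t + t] n ∈ G}.ncard : ℕ) : ℝ) := by
      unfold fd
      rw [mul_div_cancel₀ _ ha0.ne']
      rfl
    have h5 : ∑ w ∈ W d (t + t), (({y : ℤ | a * (m : ℝ) ^ sg w / (d : ℝ) ^ (t + t) ≤ y ∧
        (y : ℝ) < 2 * (a * (m : ℝ) ^ sg w / (d : ℝ) ^ (t + t)) ∧ y ∈ G ∧
        (m : ℤ) ^ sg w ∣ y - F m r e w}.ncard : ℕ) : ℝ) = SS d m r e G a (t + t) := rfl
    rw [h5] at h3
    linarith
  -- (5)
  have e5 : ∀ v : List ℕ, SS d m r e G (a * (m : ℝ) ^ sg v / (d : ℝ) ^ t) t ≤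
      (a * (m : ℝ) ^ sg v / (d : ℝ) ^ t) *
        fd (pre d m r t G) (a * (m : ℝ) ^ sg v / (d : ℝ) ^ t) +
      2 * (d : ℝ) ^ t * (B * (m : ℝ) ^ t + 1) := by
    intro v
    have hav0 := hav v
    set α := a * (m : ℝ) ^ sg v / (d : ℝ) ^ t with hα
    have h2 := card_image hd hdm hco hr hB ((pow_dvd_pow (m : ℤ) (by omega : t ≤ t + t)).trans he)
      G hav0
    have h3 := (abs_le.mp h2).1
    have h5 : ∑ w ∈ W d t, (({y : ℤ | α * (m : ℝ) ^ sg w / (d : ℝ) ^ t ≤ y ∧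
        (y : ℝ) < 2 * (α * (m : ℝ) ^ sg w / (d : ℝ) ^ t) ∧ y ∈ G ∧
        (m : ℤ) ^ sg w ∣ y - F m r e w}.ncard : ℕ) : ℝ) = SS d m r e G α t := rfl
    rw [h5] at h3
    have h4 : α * fd (pre d m r t G) α =
        (({n : ℤ | α ≤ n ∧ (n : ℝ) < 2 * α ∧ (T d m r)^[t] n ∈ G}.ncard : ℕ) : ℝ) := by
      unfold fd
      rw [mul_div_cancel₀ _ hav0.ne']
      rfl
    linarith
  -- (2)
  have hDD : (d : ℝ) ^ (t + t) = D * D := by rw [hD, pow_add]
  have hMM : (m : ℝ) ^ (t + t) = M * M := by rw [hM, pow_add]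
  have ha2 : a / (D * D) + 1 ≤ 2 * a / (D * D) := by
    have : 1 ≤ a / (D * D) := (one_le_div (mul_pos hD0 hD0)).mpr hDDa
    have h2 : 2 * a / (D * D) = 2 * (a / (D * D)) := by ring
    linarith
  have e2 : SS d m r e G a (t + t) ≤ SSk d m r e G a (t + t) k + 2 * a * (9 / 10) ^ t := by
    have h2 := SS_le (r := r) (e := e) (G := G) hd0 hm0 ha0.le (t + t) k
    have h3 := few_nonzero hd (t := t + t) (k := k) (by omega)
    rw [hDD] at h2 h3
    refine h2.trans (add_le_add le_rfl ?_)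
    have h4 : (0 : ℝ) ≤ 2 * a / (D * D) := by positivity
    calc cW d (t + t) (fun w => sg w < k) * (a / (D * D) + 1)
        ≤ D * D * (9 / 10) ^ (t + t) * (2 * a / (D * D)) :=
          mul_le_mul h3 ha2 (by positivity) (by positivity)
      _ = 2 * a * (9 / 10) ^ (t + t) := by field_simp
      _ ≤ 2 * a * (9 / 10) ^ t := by
          apply mul_le_mul_of_nonneg_left _ (by positivity)
          exact pow_le_pow_of_le_one (by norm_num) (by norm_num) (by omega)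
  -- (2')
  have e2' : SSk d m r e G a (t + t) k ≤ RRk d m r e G a (t + t) k +
      (2 * t + 1) * (2 * a * C0 * q) := by
    have h2 := SSk_sub_RRk (r := r) (e := e) (G := G) hd0 hm0 ha0.le (t + t) k
      (E := C0 * (d : ℝ) ^ (t + t) * q) (by positivity) (hosc (t + t) le_rfl)
    have h3 := (abs_le.mp h2).2
    rw [hDD] at h3
    have h4 : (((t + t : ℕ) : ℝ) + 1) * ((a / (D * D) + 1) * (C0 * (D * D) * q)) ≤
        (2 * t + 1) * (2 * a * C0 * q) := by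
      have h5 : (a / (D * D) + 1) * (C0 * (D * D) * q) ≤ 2 * a * C0 * q := by
        calc (a / (D * D) + 1) * (C0 * (D * D) * q)
            ≤ 2 * a / (D * D) * (C0 * (D * D) * q) :=
              mul_le_mul_of_nonneg_right ha2 (by positivity)
          _ = 2 * a * C0 * q := by field_simp
      push_cast
      rw [show (t : ℝ) + t + 1 = 2 * t + 1 by ring]
      exact mul_le_mul_of_nonneg_left h5 (by positivity)
    linarith
  -- (3)
  have hfew := few_nonzero hd (t := t) (k := k) hk5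
  have e3 : RRk d m r e G a (t + t) k ≤
      ∑ v ∈ W d t, RRk d m r e G (a * (m : ℝ) ^ sg v / (d : ℝ) ^ t) t k / (m : ℝ) ^ sg v +
        2 * a * (9 / 10) ^ t := by
    have h2 := RR_le (r := r) (e := e) (G := G) hd0 hm0 ha0.le t k
    refine h2.trans (add_le_add le_rfl ?_)
    rw [hDD, ← hD]
    rw [← hD] at hfew
    calc cW d t (fun w => sg w < k) * D * (a / (D * D) + 1)
        ≤ D * (9 / 10) ^ t * D * (2 * a / (D * D)) := by
          apply mul_le_mul _ ha2 (by positivity) (by positivity)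
          exact mul_le_mul_of_nonneg_right hfew hD0.le
      _ = 2 * a * (9 / 10) ^ t := by field_simp
  -- (4)
  have e4 : ∀ v : List ℕ, RRk d m r e G (a * (m : ℝ) ^ sg v / (d : ℝ) ^ t) t k /
      (m : ℝ) ^ sg v ≤ (a / D) * fd (pre d m r t G) (a * (m : ℝ) ^ sg v / (d : ℝ) ^ t) +
        2 * D * (B * M + 1) + (t + 1) * (2 * (a / D) * C0 * q) := by
    intro v
    have hav0 := hav v
    have h5v := e5 v
    have hmv : (1 : ℝ) ≤ (m : ℝ) ^ sg v := one_le_pow₀ hm1R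
    have hmv0 : (0 : ℝ) < (m : ℝ) ^ sg v := by linarith
    have hαeq : a * (m : ℝ) ^ sg v / (d : ℝ) ^ t = (a / D) * (m : ℝ) ^ sg v := by
      rw [hD]; ring
    have hg0 := fd_nonneg (pre d m r t G) hav0.le
    set α := a * (m : ℝ) ^ sg v / (d : ℝ) ^ t with hα
    have h2 := SSk_sub_RRk (r := r) (e := e) (G := G) hd0 hm0 hav0.le t k
      (E := C0 * (d : ℝ) ^ t * q) (by positivity) (hosc t (by omega))
    have h3 := (abs_le.mp h2).1
    have h4 := SSk_le_SS (d := d) (m := m) (r := r) (e := e) (G := G) α t k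
    rw [← hD] at h3 h5v
    rw [← hM] at h5v
    have hαD : 1 ≤ α / D := by
      rw [one_le_div hD0, hαeq]
      have h6 : D ≤ a / D := by rw [le_div_iff₀ hD0]; exact hDDa
      exact h6.trans (le_mul_of_one_le_right (by positivity) hmv)
    have h6 : (α / D + 1) * (C0 * D * q) ≤ 2 * α * C0 * q := by
      calc (α / D + 1) * (C0 * D * q) ≤ 2 * (α / D) * (C0 * D * q) :=
            mul_le_mul_of_nonneg_right (by linarith) (by positivity)
        _ = 2 * α * C0 * q := by field_simp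
    have h7 : ((t : ℝ) + 1) * ((α / D + 1) * (C0 * D * q)) ≤ (t + 1) * (2 * α * C0 * q) :=
      mul_le_mul_of_nonneg_left h6 (by positivity)
    have h8 : RRk d m r e G α t k ≤ α * fd (pre d m r t G) α + 2 * D * (B * M + 1) +
        (t + 1) * (2 * α * C0 * q) := by linarith
    rw [div_le_iff₀ hmv0]
    refine h8.trans ?_
    have h9 : 2 * D * (B * M + 1) ≤ 2 * D * (B * M + 1) * (m : ℝ) ^ sg v := by
      exact le_mul_of_one_le_right (by positivity) hmv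
    have h10' : α * fd (pre d m r t G) α + (t + 1) * (2 * α * C0 * q) =
        (a / D * fd (pre d m r t G) α + (t + 1) * (2 * (a / D) * C0 * q)) * (m : ℝ) ^ sg v := by
      nth_rewrite 1 [hαeq]
      nth_rewrite 2 [hαeq]
      ring
    have h11 : (a / D * fd (pre d m r t G) α + 2 * D * (B * M + 1) +
        (t + 1) * (2 * (a / D) * C0 * q)) * (m : ℝ) ^ sg v =
        (a / D * fd (pre d m r t G) α + (t + 1) * (2 * (a / D) * C0 * q)) * (m : ℝ) ^ sg v +
          2 * D * (B * M + 1) * (m : ℝ) ^ sg v := by ring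
    rw [h11, ← h10']
    linarith
  -- summation
  have e6 : ∑ v ∈ W d t, RRk d m r e G (a * (m : ℝ) ^ sg v / (d : ℝ) ^ t) t k /
      (m : ℝ) ^ sg v ≤
      (a / D) * ∑ v ∈ W d t, fd (pre d m r t G) (a * (m : ℝ) ^ sg v / (d : ℝ) ^ t) +
        D * (2 * D * (B * M + 1)) + (t + 1) * (2 * a * C0 * q) := by
    refine (Finset.sum_le_sum fun v _ => e4 v).trans (le_of_eq ?_)
    rw [Finset.sum_add_distrib, Finset.sum_add_distrib, ← Finset.mul_sum, Finset.sum_const,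
      Finset.sum_const, card_W, nsmul_eq_mul, nsmul_eq_mul]
    push_cast
    rw [← hD]
    field_simp
  -- the error terms
  have hexpt := hexp t ht
  have hqt : q ≤ (10 : ℝ) ^ (|A| + 1) * ((t : ℝ) ^ (-|A|) / t) := by
    have h2 : (t : ℝ) / 10 ≤ k := by
      rw [div_le_iff₀ (by norm_num)]
      exact_mod_cast (by omega : t ≤ k * 10)
    have h3 : q ≤ ((t : ℝ) / 10) ^ (-(|A| + 1)) := by
      apply Real.rpow_le_rpow_of_nonpos (by positivity) h2
      have := abs_nonneg A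
      linarith
    refine h3.trans (le_of_eq ?_)
    rw [Real.div_rpow ht0.le (by norm_num), neg_add, Real.rpow_add ht0, Real.rpow_neg_one,
      ← neg_add, Real.rpow_neg (by norm_num : (0 : ℝ) ≤ 10)]
    rw [div_inv_eq_mul]
    ring
  have htq : (3 * t + 2) * (2 * a * C0 * q) ≤
      a * (10 * C0 * (10 : ℝ) ^ (|A| + 1) * (t : ℝ) ^ (-|A|)) := by
    have h2 : (3 * (t : ℝ) + 2) ≤ 5 * t := by linarith
    have h3 : 0 < 2 * a * C0 := by positivity
    calc (3 * t + 2) * (2 * a * C0 * q) ≤ 5 * t * (2 * a * C0 * q) :=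
          mul_le_mul_of_nonneg_right h2 (by positivity)
      _ = 5 * t * (2 * a * C0) * q := by ring
      _ ≤ 5 * t * (2 * a * C0) * ((10 : ℝ) ^ (|A| + 1) * ((t : ℝ) ^ (-|A|) / t)) :=
          mul_le_mul_of_nonneg_left hqt (by positivity)
      _ = a * (10 * C0 * (10 : ℝ) ^ (|A| + 1) * (t : ℝ) ^ (-|A|)) := by
          field_simp
          ring
  have hrem : D * (2 * D * (B * M + 1)) + 2 * (D * D) * (B * (M * M) + 1) ≤
      a * (9 / 10) ^ t := by
    have h2 : D * (2 * D * (B * M + 1)) + 2 * (D * D) * (B * (M * M) + 1) ≤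
        4 * (B + 1) * (D * M) ^ 2 := by
      have hMM1 : 1 ≤ M * M := one_le_mul_of_one_le_of_one_le hM1 hM1
      have hMle : M ≤ M * M := le_mul_of_one_le_left hM0.le hM1
      have h3' : (B : ℝ) * M ≤ B * (M * M) := mul_le_mul_of_nonneg_left hMle hB0
      have h3 : (B : ℝ) * M + 1 ≤ (B + 1) * (M * M) := by rw [add_mul, one_mul]; linarith
      have h4 : (B : ℝ) * (M * M) + 1 ≤ (B + 1) * (M * M) := by
        rw [add_mul, one_mul]; linarith
      have h5 : 0 < D * D := mul_pos hD0 hD0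
      calc D * (2 * D * (B * M + 1)) + 2 * (D * D) * (B * (M * M) + 1)
          = 2 * (D * D) * ((B * M + 1) + (B * (M * M) + 1)) := by ring
        _ ≤ 2 * (D * D) * ((B + 1) * (M * M) + (B + 1) * (M * M)) :=
            mul_le_mul_of_nonneg_left (add_le_add h3 h4) (by positivity)
        _ = 4 * (B + 1) * (D * M) ^ 2 := by ring
    -- `(9 / 10) ^ t ≥ 1 / (D M)`
    have h3 : 1 ≤ (9 / 10 : ℝ) ^ t * (D * M) := by
      rw [hD, hM, ← mul_pow, ← mul_pow]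
      apply one_le_pow₀
      exact one_le_nine_tenths hd2R hm2R
    have h4 : C * (D * M) ^ 3 ≤ a := by
      refine le_trans ?_ ha
      have h6 : (D * M) ^ 3 ≤ (D * M) ^ 8 := pow_le_pow_right₀ hDM1 (by norm_num)
      exact mul_le_mul_of_nonneg_left h6 hC0'.le
    have hDM0 : 0 < D * M := by positivity
    have h9 : (0 : ℝ) < (9 / 10) ^ t := by positivity
    calc D * (2 * D * (B * M + 1)) + 2 * (D * D) * (B * (M * M) + 1)
        ≤ 4 * (B + 1) * (D * M) ^ 2 := h2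
      _ ≤ C * (D * M) ^ 2 := mul_le_mul_of_nonneg_right hCB (by positivity)
      _ ≤ C * (D * M) ^ 2 * ((9 / 10 : ℝ) ^ t * (D * M)) := by
          exact le_mul_of_one_le_right (by positivity) h3
      _ = C * (D * M) ^ 3 * (9 / 10) ^ t := by ring
      _ ≤ a * (9 / 10) ^ t := mul_le_mul_of_nonneg_right h4 h9.le
  -- conclusion
  have hfin : a * fd (pre d m r (t + t) G) a ≤
      a * ((∑ v ∈ W d t, fd (pre d m r t G) (a * (m : ℝ) ^ sg v / (d : ℝ) ^ t)) / (d : ℝ) ^ t +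
        C * (t : ℝ) ^ (-A)) := by
    rw [hDD, hMM] at e1
    have h2 : (a / D) * ∑ v ∈ W d t, fd (pre d m r t G) (a * (m : ℝ) ^ sg v / (d : ℝ) ^ t) =
        a * ((∑ v ∈ W d t, fd (pre d m r t G) (a * (m : ℝ) ^ sg v / (d : ℝ) ^ t)) / (d : ℝ) ^ t) := by
      rw [← hD]; ring
    have h3 : a * (9 / 10) ^ t ≤ a * (C3 * (t : ℝ) ^ (-|A|)) :=
      mul_le_mul_of_nonneg_left hexpt ha0.le
    have h4 : (5 * C3 + 10 * C0 * (10 : ℝ) ^ (|A| + 1)) * (t : ℝ) ^ (-|A|) ≤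
        C * (t : ℝ) ^ (-A) := by
      apply mul_le_mul _ hTA (by positivity) hC0'.le
      rw [hCdef]
      have : 0 < 2 * (5 : ℝ) ^ |A| := by positivity
      linarith
    have h6 : a * ((5 * C3 + 10 * C0 * (10 : ℝ) ^ (|A| + 1)) * (t : ℝ) ^ (-|A|)) ≤
        a * (C * (t : ℝ) ^ (-A)) := mul_le_mul_of_nonneg_left h4 ha0.le
    have h7 : a * ((5 * C3 + 10 * C0 * (10 : ℝ) ^ (|A| + 1)) * (t : ℝ) ^ (-|A|)) =
        5 * (a * (C3 * (t : ℝ) ^ (-|A|))) +
          a * (10 * C0 * (10 : ℝ) ^ (|A| + 1) * (t : ℝ) ^ (-|A|)) := by ring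
    rw [mul_add]
    linarith
  exact le_of_mul_le_mul_left hfin ha0



/-- The flow, in both directions. -/
theorem flowg {d m : ℕ} (hd : 2 ≤ d) (hdm : d < m) (hco : Nat.Coprime m d) {r : ℤ → ℤ}
    (hr : Admissible d m r) (h1 : Mixing d m r) :
    ∃ C : ℝ, 1 ≤ C ∧ ∀ t : ℕ, 1 ≤ t → ∀ a : ℝ,
      C * ((d : ℝ) * m) ^ (8 * t) ≤ a → ∀ G : Set ℤ,
        |fd (pre d m r (t + t) G) a -
          (∑ v ∈ W d t, fd (pre d m r t G) (a * (m : ℝ) ^ sg v / (d : ℝ) ^ t)) / (d : ℝ) ^ t| ≤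
          C / (t : ℝ) ^ 8 := by
  obtain ⟨C, hC, hflow⟩ := flowg_le hd hdm hco hr h1 8
  refine ⟨C + 3, by linarith, ?_⟩
  intro t ht a ha G
  have hd1R : (1 : ℝ) ≤ d := by exact_mod_cast (by omega : 1 ≤ d)
  have hm1R : (1 : ℝ) ≤ m := by exact_mod_cast (by omega : 1 ≤ m)
  have hd2 : (2 : ℝ) ≤ d := by exact_mod_cast hd
  have hm3 : (3 : ℝ) ≤ m := by exact_mod_cast (by omega : 3 ≤ m)
  have hdm4 : (4 : ℝ) ≤ (d : ℝ) * m := by nlinarith
  have ht0 : (0 : ℝ) < t := by exact_mod_cast ht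
  have hdt : (0 : ℝ) < (d : ℝ) ^ t := by positivity
  have hP : (1 : ℝ) ≤ ((d : ℝ) * m) ^ (8 * t) := one_le_pow₀ (by linarith)
  have hP0 : (0 : ℝ) < ((d : ℝ) * m) ^ (8 * t) := by linarith
  have ha' : C * ((d : ℝ) * m) ^ (8 * t) ≤ a := by
    refine le_trans ?_ ha
    gcongr
    linarith
  have ha3 : 3 * ((d : ℝ) * m) ^ (8 * t) ≤ a := by
    refine le_trans ?_ ha
    gcongr
    linarith
  have ha0 : 0 < a := by linarith
  -- the reciprocal of the places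
  have hinv : (d : ℝ) ^ t / a ≤ 1 / (t : ℝ) ^ 8 := by
    rw [div_le_div_iff₀ ha0 (by positivity), one_mul]
    have h2 := pow_eight_le hdm4 (t := t)
    have h3 : (d : ℝ) ^ t ≤ ((d : ℝ) * m) ^ t :=
      pow_le_pow_left₀ (by positivity) (le_mul_of_one_le_right (by linarith) hm1R) t
    calc (d : ℝ) ^ t * (t : ℝ) ^ 8 ≤ ((d : ℝ) * m) ^ t * ((d : ℝ) * m) ^ (7 * t) := by gcongr
      _ = ((d : ℝ) * m) ^ (8 * t) := by rw [← pow_add]; congr 1; ring
      _ ≤ a := by linarith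
  have hinv1 : 1 / a ≤ 1 / (t : ℝ) ^ 8 := by
    refine le_trans ?_ hinv
    exact div_le_div_of_nonneg_right (one_le_pow₀ hd1R) ha0.le
  have hrp : (t : ℝ) ^ (-(8 : ℝ)) = 1 / (t : ℝ) ^ 8 := by
    rw [Real.rpow_neg ht0.le, one_div]
    congr 1
    exact_mod_cast Real.rpow_natCast (t : ℝ) 8
  have hup := hflow t ht a ha' G
  have hlo := hflow t ht a ha' Gᶜ
  rw [hrp, ← pre_compl, ← pre_compl] at hlo
  rw [hrp] at hup
  set P := pre d m r t G with hPdef
  set P' := pre d m r (t + t) G with hP'def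
  set S := ∑ v ∈ W d t, fd P (a * (m : ℝ) ^ sg v / (d : ℝ) ^ t) with hS
  set S' := ∑ v ∈ W d t, fd Pᶜ (a * (m : ℝ) ^ sg v / (d : ℝ) ^ t) with hS'
  have hSS : S + S' ≤ (d : ℝ) ^ t * (1 + 1 / (t : ℝ) ^ 8) := by
    rw [hS, hS', ← Finset.sum_add_distrib]
    have h2 : ∀ v ∈ W d t, fd P (a * (m : ℝ) ^ sg v / (d : ℝ) ^ t) +
        fd Pᶜ (a * (m : ℝ) ^ sg v / (d : ℝ) ^ t) ≤ 1 + 1 / (t : ℝ) ^ 8 := by
      intro v _
      have h3 : 0 < a * (m : ℝ) ^ sg v / (d : ℝ) ^ t := by positivity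
      have h4 := (abs_le.1 (fd_add_compl P h3)).2
      have h5 : 1 / (a * (m : ℝ) ^ sg v / (d : ℝ) ^ t) ≤ (d : ℝ) ^ t / a := by
        rw [one_div, inv_div]
        apply div_le_div_of_nonneg_left hdt.le ha0
        exact le_mul_of_one_le_right ha0.le (one_le_pow₀ hm1R)
      linarith
    refine (Finset.sum_le_sum h2).trans (le_of_eq ?_)
    rw [Finset.sum_const, card_W, nsmul_eq_mul]
    push_cast
    rfl
  have hSS' : S / (d : ℝ) ^ t + S' / (d : ℝ) ^ t ≤ 1 + 1 / (t : ℝ) ^ 8 := by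
    rw [← add_div, div_le_iff₀ hdt]
    linarith
  have h6 := (abs_le.1 (fd_add_compl P' ha0)).1
  have e : (C + 3) / (t : ℝ) ^ 8 = C * (1 / (t : ℝ) ^ 8) + 3 * (1 / (t : ℝ) ^ 8) := by ring
  have h7 : 0 < 1 / (t : ℝ) ^ 8 := by positivity
  rw [e, abs_le]
  constructor <;> linarith

end Pool.Agent.Helper8.CL
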