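import Pool.Agent.Helper8.CL.Bounds
import Pool.Agent.Helper8.CL.Clt2
import Pool.Agent.Helper8.ND.HSets

/-!
# The central limit theorem for the time at which the orbit becomes at most `z`
-/

set_option autoImplicit false

namespace Pool.Agent.Helper8.CL

open Pool.Agent.Helper68.Moeller Pool.Agent.Helper52.Tao Pool.Agent.Helper8.ND ProbabilityTheory
  Filter Topology

variable {d m : ℕ} {r : ℤ → ℤ}

theorem fd_NZ (h : Final d m r) (hη : eta d m < 1) {ε : ℝ} (hε : 0 < ε) :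
    ∃ z₁ : ℝ, 1 ≤ z₁ ∧ ∀ z : ℝ, z₁ ≤ z → ∀ x : ℝ, 0 ≤ x → fd (NZ d m r z) (Real.exp x) ≤ ε := by
  obtain ⟨C, hC, hfin⟩ := h ((eta d m + 1) / 2) (by linarith) (by linarith)
  have h1 : Tendsto (fun z : ℝ => 2 * C * z ^ (-(1 - (eta d m + 1) / 2))) atTop (𝓝 (2 * C * 0)) :=
    (tendsto_rpow_neg_atTop (by linarith)).const_mul _
  rw [mul_zero] at h1
  obtain ⟨z₁, hz₁⟩ := eventually_atTop.1 (h1.eventually (gt_mem_nhds hε))
  refine ⟨max 1 z₁, le_max_left _ _, fun z hz x hx => ?_⟩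
  have hz1 : 1 ≤ z := (le_max_left _ _).trans hz
  have h2 := hz₁ z ((le_max_right _ _).trans hz)
  have hex : 1 ≤ Real.exp x := Real.one_le_exp hx
  have h3 := hfin (2 * Real.exp x) z (by linarith) hz1
  have h4 : {n : ℤ | Real.exp x ≤ n ∧ (n : ℝ) < 2 * Real.exp x ∧ n ∈ NZ d m r z} ⊆
      {n : ℤ | 0 < n ∧ (n : ℝ) ≤ 2 * Real.exp x ∧ ∀ k : ℕ, z < ((T d m r)^[k] n : ℝ)} := by
    rintro n ⟨a1, a2, a3⟩
    refine ⟨?_, a2.le, a3⟩
    have : (0 : ℝ) < n := by linarith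
    exact_mod_cast this
  have hfinite : {n : ℤ | 0 < n ∧ (n : ℝ) ≤ 2 * Real.exp x ∧
      ∀ k : ℕ, z < ((T d m r)^[k] n : ℝ)}.Finite := by
    refine (Finset.finite_toSet (Finset.Icc (1 : ℤ) ⌊2 * Real.exp x⌋)).subset ?_
    rintro n ⟨a1, a2, _⟩
    rw [Finset.mem_coe, Finset.mem_Icc]
    exact ⟨a1, Int.le_floor.2 a2⟩
  have h5 : ({n : ℤ | Real.exp x ≤ n ∧ (n : ℝ) < 2 * Real.exp x ∧ n ∈ NZ d m r z}.ncard : ℝ) ≤
      ({n : ℤ | 0 < n ∧ (n : ℝ) ≤ 2 * Real.exp x ∧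
        ∀ k : ℕ, z < ((T d m r)^[k] n : ℝ)}.ncard : ℝ) := by
    exact_mod_cast Set.ncard_le_ncard h4 hfinite
  unfold fd
  rw [div_le_iff₀ (by linarith)]
  have e : -(1 - (eta d m + 1) / 2) = (eta d m + 1) / 2 - 1 := by ring
  rw [e] at h2
  have h6 : C * (2 * Real.exp x) * z ^ ((eta d m + 1) / 2 - 1) =
      (2 * C * z ^ ((eta d m + 1) / 2 - 1)) * Real.exp x := by ring
  have h7 := mul_le_mul_of_nonneg_right h2.le (by linarith : (0 : ℝ) ≤ Real.exp x)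
  linarith

theorem exists_lim (hd : 2 ≤ d) (hdm : d < m) (hco : Nat.Coprime m d)
    (hγ : (1 - 1 / (d : ℝ)) * Real.log m < Real.log d) (hr : Admissible d m r)
    (hmix : Mixing d m r) {z : ℝ} {G : Set ℤ} (hG : TInv d m r G z) :
    ∃ δ : ℝ, 0 ≤ δ ∧ δ ≤ 2 ∧ Tendsto (fun u : ℝ => fd G (Real.exp u)) atTop (𝓝 δ) := by
  obtain ⟨c, C, K₁, hc, hC, hK₁, hgood⟩ := good_gl hd hdm hco hr hmix
  obtain ⟨K₀, S₂, hK₀, hS₂, hconv⟩ := conv hd hdm hco hγ hc hC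
  have hG' : TInv d m r G (max 1 z) := fun n hn => hG n (lt_of_le_of_lt (le_max_right _ _) hn)
  obtain ⟨δ, hδ0, hδ2, hδ⟩ := hconv _ _ (hgood (max 1 z) (le_max_left _ _) G hG')
  refine ⟨δ, hδ0, hδ2, ?_⟩
  rw [Metric.tendsto_atTop]
  intro ε hε
  have hlim : Tendsto (fun s : ℝ => K₀ / Real.log s) atTop (𝓝 0) :=
    Real.tendsto_log_atTop.const_div_atTop _
  have h4 : Tendsto (fun s : ℝ => s ^ 4) atTop atTop := tendsto_pow_atTop (by norm_num)
  obtain ⟨s, ⟨h1, h2⟩, h3⟩ := ((hlim.eventually (gt_mem_nhds hε)).and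
    (eventually_ge_atTop S₂)).and
      (h4.eventually_ge_atTop (2 * (K₁ + 4 * Real.log (max 1 z)))) |>.exists
  refine ⟨s ^ 4, fun u hu => ?_⟩
  have hu0 : 0 ≤ u := le_trans (by positivity) hu
  have h5 := hδ s h2 h3 u hu
  rw [gl_of_nonneg G hu0] at h5
  rw [Real.dist_eq]
  exact lt_of_le_of_lt h5 h1

/-- The integers of an invariant set whose orbit is above `z` for a time close to `log n / γ`. -/
theorem lim_FK (hd : 2 ≤ d) (hdm : d < m) (hco : Nat.Coprime m d) {γ : ℝ}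
    (hγdef : γ = Real.log d - (1 - 1 / (d : ℝ)) * Real.log m) (hγ : 0 < γ)
    (hr : Admissible d m r) (hmix : Mixing d m r)
    (hN : ∀ ε : ℝ, 0 < ε → ∃ z₁ : ℝ, 1 ≤ z₁ ∧ ∀ z : ℝ, z₁ ≤ z → ∀ x : ℝ, 0 ≤ x →
      fd (NZ d m r z) (Real.exp x) ≤ ε) {x₀ : ℝ} {G : Set ℤ} (hG : TInv d m r G x₀) {c₁ : ℝ}
    (hc₁ : 0 ≤ c₁) (hc₂ : c₁ ≤ 2)
    (hlim : Tendsto (fun u : ℝ => fd G (Real.exp u)) atTop (𝓝 c₁)) {ε : ℝ} (hε : 0 < ε) :
    ∃ z₁ : ℝ, ∀ z : ℝ, z₁ ≤ z → ∀ (y : ℝ) (j : ℤ), ∀ᶠ u : ℝ in atTop,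
      |FK d m r z G (kk γ (y * (Real.log m * Real.sqrt (vv d) / (γ * Real.sqrt γ))) u + j) u -
        c₁ * (gaussianReal 0 1).real (Set.Ioi y)| ≤ ε := by
  have hd2 : (2 : ℝ) ≤ d := by exact_mod_cast hd
  have hm3 : (3 : ℝ) ≤ m := by exact_mod_cast (by omega : 3 ≤ m)
  have hlam : 0 < Real.log d := Real.log_pos (by linarith)
  have hμ : 0 < Real.log m := Real.log_pos (by linarith)
  have hγ' : (1 - 1 / (d : ℝ)) * Real.log m < Real.log d := by linarith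
  obtain ⟨S₁, hS₁, hup⟩ := upper hd hdm hco hγ' hr hmix
  obtain ⟨S₁', c₀, hS₁', hc₀, hlo⟩ := lower hd hdm hco hγ' hr hmix
  obtain ⟨z₁, hz₁, hz₁'⟩ := hN (ε / 8) (by positivity)
  refine ⟨max z₁ x₀, fun z hz y j => ?_⟩
  have hz1 : z₁ ≤ z := (le_max_left _ _).trans hz
  have hzx : x₀ ≤ z := (le_max_right _ _).trans hz
  have hzone : 1 ≤ z := hz₁.trans hz1
  have hGz : TInv d m r G z := fun n hn => hG n (lt_of_le_of_lt hzx hn)
  obtain ⟨u₀, hup'⟩ := hup z hzone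
  obtain ⟨u₀', hlo'⟩ := hlo z hzone
  -- the choice of `s`
  have h4 : Tendsto (fun s : ℝ => s ^ 4) atTop atTop := tendsto_pow_atTop (by norm_num)
  have h5 : Tendsto (fun s : ℝ => s ^ 4 - Real.log d * s) atTop atTop := by
    refine tendsto_atTop_mono' _ ?_ tendsto_id
    filter_upwards [eventually_ge_atTop (1 + Real.log d)] with s hs
    simp only [id]
    have h6 : 1 + Real.log d ≤ s ^ 3 := by
      calc 1 + Real.log d ≤ s := hs
        _ = s ^ 1 := (pow_one s).symm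
        _ ≤ s ^ 3 := pow_le_pow_right₀ (by linarith) (by norm_num)
    have h7 := mul_le_mul_of_nonneg_left h6 (by linarith : 0 ≤ s)
    have e : s ^ 4 = s * s ^ 3 := by ring
    linarith
  have hlim' : ∀ᶠ w : ℝ in atTop, ∀ x : ℝ, w ≤ x → |fd G (Real.exp x) - c₁| ≤ ε / 8 := by
    have h6 := (Metric.tendsto_atTop.1 hlim) (ε / 8) (by positivity)
    obtain ⟨N, hN⟩ := h6
    filter_upwards [eventually_ge_atTop N] with w hw x hx
    have := hN x (hw.trans hx)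
    rw [Real.dist_eq] at this
    exact this.le
  have hz4 : Tendsto (fun s : ℝ => 2 / s ^ 4) atTop (𝓝 0) := h4.const_div_atTop _
  have hze : Tendsto (fun s : ℝ => 2 * Real.exp (-(c₀ * s ^ 4))) atTop (𝓝 0) := by
    have h6 : Tendsto (fun s : ℝ => Real.exp (-(c₀ * s ^ 4))) atTop (𝓝 0) :=
      Real.tendsto_exp_neg_atTop_nhds_zero.comp (h4.const_mul_atTop hc₀)
    have h7 := h6.const_mul 2
    rwa [mul_zero] at h7
  obtain ⟨s, ⟨⟨⟨s1, s2⟩, s3, s4⟩, s5, s6⟩, s7, s8⟩ :=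
    (((((eventually_ge_atTop S₁).and (eventually_ge_atTop S₁')).and
      ((h4.eventually_ge_atTop u₀).and (h4.eventually_ge_atTop u₀'))).and
      ((h5.eventually hlim').and (h5.eventually_ge_atTop 0))).and
      ((hz4.eventually (gt_mem_nhds (by positivity : 0 < ε / 8))).and
        (hze.eventually (gt_mem_nhds (by positivity : 0 < ε / 8))))).exists
  obtain ⟨θ, hθ⟩ := hup' G hGz c₁ (ε / 8) s hc₁ (by positivity) s1 s3
    (fun x hx => by have := (abs_le.1 (s5 x hx)).2; linarith)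
    (fun x hx => hz₁' z hz1 x (s6.trans hx))
  have hlow := hlo' G hGz c₁ (ε / 8) s hc₁ hc₂ (by positivity) s2 s4
    (fun x hx => by have := (abs_le.1 (s5 x hx)).1; linarith) s8.le
  have hc1 := (clt hd hμ hγdef hγ θ y j).const_mul c₁
  have hc2 := (clt hd hμ hγdef hγ (2 * s ^ 4) y j).const_mul c₁
  filter_upwards [eventually_ge_atTop (s ^ 4),
    hc1.eventually (gt_mem_nhds (by linarith : c₁ * (gaussianReal 0 1).real (Set.Ioi y) <
      c₁ * (gaussianReal 0 1).real (Set.Ioi y) + ε / 2)),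
    hc2.eventually (lt_mem_nhds (by linarith : c₁ * (gaussianReal 0 1).real (Set.Ioi y) - ε / 2 <
      c₁ * (gaussianReal 0 1).real (Set.Ioi y)))] with u hu h6 h7
  have h8 := hθ (kk γ (y * (Real.log m * Real.sqrt (vv d) / (γ * Real.sqrt γ))) u + j) u hu
  have h9 := hlow (kk γ (y * (Real.log m * Real.sqrt (vv d) / (γ * Real.sqrt γ))) u + j) u hu
  rw [abs_le]
  constructor <;> linarith

end Pool.Agent.Helper8.CL
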