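import Pool.Agent.Helper8.CL.Limit

/-!
# The central limit theorem for times, natural density
-/

set_option autoImplicit false

namespace Pool.Agent.Helper8.CL

open Pool.Agent.Helper68.Moeller Pool.Agent.Helper52.Tao Pool.Agent.Helper8.ND ProbabilityTheory
  Filter Topology

variable {d m : ℕ} {r : ℤ → ℤ}

theorem fd_inter_add_diff (A G : Set ℤ) (a : ℝ) : fd (A ∩ G) a + fd (G \ A) a = fd G a := by
  unfold fd
  rw [← add_div]
  congr 1
  have h1 : {n : ℤ | a ≤ n ∧ (n : ℝ) < 2 * a ∧ n ∈ G} =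
      {n : ℤ | a ≤ n ∧ (n : ℝ) < 2 * a ∧ n ∈ A ∩ G} ∪
      {n : ℤ | a ≤ n ∧ (n : ℝ) < 2 * a ∧ n ∈ G \ A} := by
    ext n
    simp only [Set.mem_union, Set.mem_ofPred_eq, Set.mem_inter_iff, Set.mem_sdiff]
    tauto
  have h2 : Disjoint {n : ℤ | a ≤ n ∧ (n : ℝ) < 2 * a ∧ n ∈ A ∩ G}
      {n : ℤ | a ≤ n ∧ (n : ℝ) < 2 * a ∧ n ∈ G \ A} :=
    Set.disjoint_left.2 fun n hn hn' => hn'.2.2.2 hn.2.2.1
  rw [h1, Set.ncard_union_eq h2 (finite_Y _ a) (finite_Y _ a)]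
  push_cast
  rfl

theorem fd_union_le (A B : Set ℤ) {a : ℝ} (ha : 0 ≤ a) : fd (A ∪ B) a ≤ fd A a + fd B a := by
  unfold fd
  rw [← add_div]
  apply div_le_div_of_nonneg_right _ ha
  have h1 : {n : ℤ | a ≤ n ∧ (n : ℝ) < 2 * a ∧ n ∈ A ∪ B} =
      {n : ℤ | a ≤ n ∧ (n : ℝ) < 2 * a ∧ n ∈ A} ∪ {n : ℤ | a ≤ n ∧ (n : ℝ) < 2 * a ∧ n ∈ B} := by
    ext n
    simp only [Set.mem_union, Set.mem_ofPred_eq]
    tauto
  rw [h1]
  exact_mod_cast Set.ncard_union_le _ _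

theorem fd_mono' {A B : Set ℤ} {a : ℝ} (ha : 0 < a) (h : ∀ n : ℤ, a ≤ n → (n : ℝ) < 2 * a → n ∈ A →
    n ∈ B) : fd A a ≤ fd B a := by
  unfold fd
  apply div_le_div_of_nonneg_right _ ha.le
  have h1 : {n : ℤ | a ≤ n ∧ (n : ℝ) < 2 * a ∧ n ∈ A} ⊆ {n : ℤ | a ≤ n ∧ (n : ℝ) < 2 * a ∧ n ∈ B} :=
    fun n hn => ⟨hn.1, hn.2.1, h n hn.1 hn.2.1 hn.2.2⟩
  exact_mod_cast Set.ncard_le_ncard h1 (finite_Y B a)

theorem real_Iic (y : ℝ) : (gaussianReal 0 1).real (Set.Iic y) =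
    1 - (gaussianReal 0 1).real (Set.Ioi y) := by
  rw [← Set.compl_Ioi, MeasureTheory.probReal_compl_eq_one_sub measurableSet_Ioi]

theorem lim_time {γ : ℝ} (hγ : 0 < γ) {σ : ℝ}
    (hN : ∀ ε : ℝ, 0 < ε → ∃ z₁ : ℝ, 1 ≤ z₁ ∧ ∀ z : ℝ, z₁ ≤ z → ∀ x : ℝ, 0 ≤ x →
      fd (NZ d m r z) (Real.exp x) ≤ ε) {G : Set ℤ} {c₁ : ℝ}
    (hlim : Tendsto (fun u : ℝ => fd G (Real.exp u)) atTop (𝓝 c₁))
    (hFK : ∀ ε : ℝ, 0 < ε → ∃ z₁ : ℝ, ∀ z : ℝ, z₁ ≤ z → ∀ (y : ℝ) (j : ℤ), ∀ᶠ u : ℝ in atTop,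
      |FK d m r z G (kk γ (y * σ) u + j) u - c₁ * (gaussianReal 0 1).real (Set.Ioi y)| ≤ ε)
    {τ : ℤ → ℕ} (hτ : ∀ z₁ : ℝ, ∃ z : ℝ, z₁ ≤ z ∧ ∃ R : ℕ, ∀ n : ℤ, n ∈ G → 0 < n → ∀ k : ℕ,
      (τ n ≤ k → n ∈ SK d m r z k → n ∈ NZ d m r z) ∧ (n ∉ SK d m r z k → τ n ≤ k + R))
    (y : ℝ) (j : ℤ) :
    Tendsto (fun u : ℝ => fd {n : ℤ | n ∈ G ∧ (τ n : ℤ) ≤ kk γ (y * σ) u + j} (Real.exp u)) atTop
      (𝓝 (c₁ * (gaussianReal 0 1).real (Set.Iic y))) := by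
  rw [Metric.tendsto_atTop']
  intro ε hε
  obtain ⟨z₁, hz₁⟩ := hFK (ε / 4) (by positivity)
  obtain ⟨z₂, _, hz₂⟩ := hN (ε / 5) (by positivity)
  obtain ⟨z, hz, R, hR⟩ := hτ (max z₁ z₂)
  have h1 := hz₁ z ((le_max_left _ _).trans hz) y j
  have h2 := hz₁ z ((le_max_left _ _).trans hz) y (j - R)
  have h3 := hz₂ z ((le_max_right _ _).trans hz)
  have h4 : ∀ᶠ u : ℝ in atTop, |fd G (Real.exp u) - c₁| < ε / 5 := by
    have := (Metric.tendsto_nhds.1 hlim) (ε / 5) (by positivity)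
    simpa [Real.dist_eq] using this
  have h5 := (tendsto_kk hγ (y * σ) (j - R)).eventually_ge_atTop 0
  obtain ⟨N, hN'⟩ := eventually_atTop.1 (h1.and (h2.and (h4.and (h5.and (eventually_ge_atTop 0)))))
  refine ⟨N, fun u hu => ?_⟩
  obtain ⟨e1, e2, e3, e4, e5⟩ := hN' u hu.le
  have hexp := Real.exp_pos u
  have e4' : 0 ≤ kk γ (y * σ) u + (j - R) := by exact_mod_cast e4
  obtain ⟨k, hk⟩ := Int.eq_ofNat_of_zero_le (by linarith [(Nat.cast_nonneg R : (0 : ℤ) ≤ R)] :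
    0 ≤ kk γ (y * σ) u + j)
  obtain ⟨k', hk'⟩ := Int.eq_ofNat_of_zero_le e4'
  rw [hk] at e1 ⊢
  rw [hk'] at e2
  have hkk : (k' : ℤ) + R = k := by rw [← hk, ← hk']; ring
  -- the upper bound
  have hup : fd {n : ℤ | n ∈ G ∧ (τ n : ℤ) ≤ (k : ℤ)} (Real.exp u) ≤
      fd (G \ SK d m r z k) (Real.exp u) + fd (NZ d m r z) (Real.exp u) := by
    refine le_trans (fd_mono' hexp ?_) (fd_union_le _ _ hexp.le)
    rintro n hn1 _ ⟨a1, a2⟩
    have hn0 : 0 < n := by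
      have : (0 : ℝ) < n := by linarith
      exact_mod_cast this
    by_cases h : n ∈ SK d m r z k
    · right
      exact (hR n a1 hn0 k).1 (by exact_mod_cast a2) h
    · left
      exact ⟨a1, h⟩
  have hlo : fd (G \ SK d m r z k') (Real.exp u) ≤
      fd {n : ℤ | n ∈ G ∧ (τ n : ℤ) ≤ (k : ℤ)} (Real.exp u) := by
    refine fd_mono' hexp ?_
    rintro n hn1 _ ⟨a1, a2⟩
    have hn0 : 0 < n := by
      have : (0 : ℝ) < n := by linarith
      exact_mod_cast this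
    refine ⟨a1, ?_⟩
    have h6 := (hR n a1 hn0 k').2 a2
    rw [← hkk]
    exact_mod_cast h6
  have h6 := fd_inter_add_diff (SK d m r z k) G (Real.exp u)
  have h7 := fd_inter_add_diff (SK d m r z k') G (Real.exp u)
  have h8 : FK d m r z G k u = fd (SK d m r z k ∩ G) (Real.exp u) := rfl
  have h9 : FK d m r z G k' u = fd (SK d m r z k' ∩ G) (Real.exp u) := rfl
  have h10 := h3 u e5
  rw [h8] at e1
  rw [h9] at e2
  rw [Real.dist_eq, real_Iic, abs_lt]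
  have e1' := abs_le.1 e1
  have e2' := abs_le.1 e2
  have e3' := abs_lt.1 e3
  constructor
  · linarith [e2'.2, e3'.1]
  · linarith [e1'.1, e3'.2]

/-- From the windows to the threshold `log n / γ + y σ √(log n)`. -/
theorem lim_thr {γ : ℝ} (hγ : 0 < γ) {ys : ℝ} {G : Set ℤ} {τ : ℤ → ℕ} {c₂ : ℝ}
    (h : ∀ j : ℤ, Tendsto (fun u : ℝ => fd {n : ℤ | n ∈ G ∧ (τ n : ℤ) ≤ kk γ ys u + j}
      (Real.exp u)) atTop (𝓝 c₂)) :
    Tendsto (fun u : ℝ => fd {n : ℤ | n ∈ G ∧ (τ n : ℝ) ≤ Real.log n / γ +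
      ys * Real.sqrt (Real.log n)} (Real.exp u)) atTop (𝓝 c₂) := by
  set J₀ := 1 / γ + |ys| with hJ₀
  set J : ℤ := ⌈J₀⌉ + 1 with hJ
  have hJ1 : J₀ + 1 ≤ J := by
    rw [hJ]; push_cast; linarith [Int.le_ceil J₀]
  have hkey : ∀ u : ℝ, 0 ≤ u → ∀ n : ℤ, Real.exp u ≤ n → (n : ℝ) < 2 * Real.exp u →
      |(Real.log n / γ + ys * Real.sqrt (Real.log n)) - (u / γ + ys * Real.sqrt u)| ≤ J₀ := by
    intro u hu n h1 h2
    have hexp := Real.exp_pos u
    have h3 : u ≤ Real.log n := by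
      rw [← Real.log_exp u]; exact Real.log_le_log hexp h1
    have h4 : Real.log n ≤ u + 1 := by
      have h5 : Real.log n ≤ Real.log (2 * Real.exp u) := Real.log_le_log (by linarith) h2.le
      rw [Real.log_mul (by norm_num) hexp.ne', Real.log_exp] at h5
      have := Real.log_two_lt_d9
      linarith
    have h5 : Real.sqrt (Real.log n) ≤ Real.sqrt u + 1 := by
      rw [Real.sqrt_le_left (by positivity)]
      have h6 := Real.sq_sqrt hu
      have h7 := Real.sqrt_nonneg u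
      nlinarith
    have h6 : Real.sqrt u ≤ Real.sqrt (Real.log n) := Real.sqrt_le_sqrt h3
    have e : (Real.log n / γ + ys * Real.sqrt (Real.log n)) - (u / γ + ys * Real.sqrt u) =
        (Real.log n - u) / γ + ys * (Real.sqrt (Real.log n) - Real.sqrt u) := by
      field_simp
      ring
    rw [e]
    refine (abs_add_le _ _).trans ?_
    rw [hJ₀]
    apply add_le_add
    · rw [abs_div, abs_of_pos hγ, abs_of_nonneg (by linarith)]
      exact div_le_div_of_nonneg_right (by linarith) hγ.le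
    · rw [abs_mul]
      have h7 : |Real.sqrt (Real.log n) - Real.sqrt u| ≤ 1 := by
        rw [abs_of_nonneg (by linarith)]; linarith
      calc |ys| * |Real.sqrt (Real.log n) - Real.sqrt u| ≤ |ys| * 1 :=
            mul_le_mul_of_nonneg_left h7 (abs_nonneg _)
        _ = |ys| := mul_one _
  refine tendsto_of_tendsto_of_tendsto_of_le_of_le' (h (-J)) (h J) ?_ ?_
  · filter_upwards [eventually_ge_atTop 0] with u hu
    refine fd_mono' (Real.exp_pos u) ?_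
    rintro n h1 h2 ⟨h3, h4⟩
    refine ⟨h3, ?_⟩
    have h5 := (abs_le.1 (hkey u hu n h1 h2)).1
    have h6 := kk_le γ ys u
    have h7 : (τ n : ℝ) ≤ kk γ ys u + (-J : ℤ) := by exact_mod_cast h4
    push_cast at h7
    linarith
  · filter_upwards [eventually_ge_atTop 0] with u hu
    refine fd_mono' (Real.exp_pos u) ?_
    rintro n h1 h2 ⟨h3, h4⟩
    refine ⟨h3, ?_⟩
    have h5 := (abs_le.1 (hkey u hu n h1 h2)).2
    have h6 := lt_kk γ ys u
    have h7 : (τ n : ℝ) ≤ ((kk γ ys u + J : ℤ) : ℝ) := by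
      push_cast
      linarith
    exact_mod_cast h7

/-- Natural density from the windows. -/
theorem dens_of_fd {G : Set ℤ} {δ : ℝ}
    (h : Tendsto (fun u : ℝ => fd G (Real.exp u)) atTop (𝓝 δ)) :
    Tendsto (fun x : ℝ => cN G x / x) atTop (𝓝 δ) := by
  rw [Metric.tendsto_atTop']
  intro ε hε
  obtain ⟨N, hN⟩ := (Metric.tendsto_atTop.1 h) (ε / 2) (by positivity)
  set y := Real.exp (max N 0) with hy
  have hy1 : 1 ≤ y := Real.one_le_exp (le_max_right _ _)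
  have hwin : ∀ a, y ≤ a → |fd G a - δ| ≤ ε / 2 := by
    intro a ha
    have ha0 : 0 < a := by linarith
    have h1 : N ≤ Real.log a := by
      refine (le_max_left N 0).trans ?_
      rw [Real.le_log_iff_exp_le ha0]
      exact ha
    have h2 := hN (Real.log a) h1
    rw [Real.exp_log ha0, Real.dist_eq] at h2
    exact h2.le
  have hlim : Tendsto (fun x : ℝ => (1 + (1 + |δ|) * (2 * y)) / x) atTop (𝓝 0) :=
    tendsto_id.const_div_atTop _
  obtain ⟨M, hM⟩ := eventually_atTop.1 (hlim.eventually (gt_mem_nhds (by positivity : 0 < ε / 2)))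
  refine ⟨max M y, fun x hx => ?_⟩
  have hxM : M ≤ x := ((le_max_left _ _).trans_lt hx).le
  have hxy : y ≤ x := ((le_max_right _ _).trans_lt hx).le
  have hx0 : 0 < x := by linarith
  have h1 := hM x hxM
  obtain ⟨k, hk1, hk2⟩ := exists_nat_pow_near ((one_le_div (by linarith)).2 hxy)
    (by norm_num : (1 : ℝ) < 2)
  have h2k : (0 : ℝ) < 2 ^ k := by positivity
  rw [le_div_iff₀ (by linarith)] at hk1
  rw [div_lt_iff₀ (by linarith)] at hk2
  set y' := x / 2 ^ k with hy'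
  have hy'1 : y ≤ y' := by
    rw [hy', le_div_iff₀ h2k]; linarith
  have hy'2 : y' ≤ 2 * y := by
    rw [hy', div_le_iff₀ h2k]
    have : (2 : ℝ) ^ (k + 1) * y = 2 * y * 2 ^ k := by ring
    linarith
  have hxy' : 2 ^ k * y' = x := by rw [hy']; field_simp
  have h2 := dyadic G (hy1.trans hy'1) (fun a ha => hwin a (hy'1.trans ha)) k
  rw [hxy'] at h2
  have hy'0 : 0 ≤ y' := by linarith
  have h3 : |cL G y' - δ * y'| ≤ (1 + |δ|) * (2 * y) := by
    have h4 : cL G y' ≤ y' := (cL_le_cN G y').trans (cN_le G hy'0)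
    have h5 : 0 ≤ cL G y' := by unfold cL; positivity
    refine (abs_sub _ _).trans ?_
    rw [abs_of_nonneg h5, abs_mul, abs_of_nonneg hy'0]
    have h6 := mul_le_mul_of_nonneg_left hy'2 (abs_nonneg δ)
    linarith
  have h5 := cL_le_cN G x
  have h6 := cN_le_cL G x
  have h7 := abs_le.1 h2
  rw [Real.dist_eq]
  have e : cN G x / x - δ = (cN G x - δ * x) / x := by field_simp
  rw [e, abs_div, abs_of_pos hx0, div_lt_iff₀ hx0]
  rw [div_lt_iff₀ hx0] at h1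
  rw [abs_lt]
  constructor <;> linarith

end Pool.Agent.Helper8.CL
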