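import Pool.Agent.Helper8.ND.MaxP

/-!
# The random walk of a Möller map

`V θ k u` is the probability that the random walk with steps `-log d` (probability `1 / d`) and
`log m - log d`, started at `u`, is above `θ` at time `k` (`1` for negative times).
-/

set_option autoImplicit false

namespace Pool.Agent.Helper8.CL

open Pool.Agent.Helper52.Tao Pool.Agent.Helper8.ND

open Classical in
/-- The probability that the walk is above `θ` at time `k`. -/
noncomputable def V (d : ℕ) (μ lam θ : ℝ) (k : ℤ) (u : ℝ) : ℝ :=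
  if k < 0 then 1 else
    (∑ v ∈ W d k.toNat, if θ < u + sg v * μ - k.toNat * lam then (1 : ℝ) else 0) /
      (d : ℝ) ^ k.toNat

variable {d : ℕ} {μ lam θ : ℝ}

theorem V_neg {k : ℤ} (hk : k < 0) (u : ℝ) : V d μ lam θ k u = 1 := if_pos hk

open Classical in
theorem V_nat (k : ℕ) (u : ℝ) : V d μ lam θ k u =
    (∑ v ∈ W d k, if θ < u + sg v * μ - k * lam then (1 : ℝ) else 0) / (d : ℝ) ^ k := by
  unfold V
  rw [if_neg (by omega)]
  simp only [Int.toNat_natCast]

theorem V_nonneg (k : ℤ) (u : ℝ) : 0 ≤ V d μ lam θ k u := by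
  classical
  rcases lt_or_ge k 0 with hk | hk
  · rw [V_neg hk]; norm_num
  · obtain ⟨n, rfl⟩ := Int.eq_ofNat_of_zero_le hk
    rw [V_nat]
    apply div_nonneg _ (by positivity)
    exact Finset.sum_nonneg fun v _ => by split_ifs <;> norm_num

theorem V_le_one (hd : 1 ≤ d) (k : ℤ) (u : ℝ) : V d μ lam θ k u ≤ 1 := by
  classical
  rcases lt_or_ge k 0 with hk | hk
  · rw [V_neg hk]
  · obtain ⟨n, rfl⟩ := Int.eq_ofNat_of_zero_le hk
    have hdn : (0 : ℝ) < (d : ℝ) ^ n := by positivity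
    rw [V_nat, div_le_one hdn]
    calc (∑ v ∈ W d n, if θ < u + sg v * μ - n * lam then (1 : ℝ) else 0)
        ≤ ∑ v ∈ W d n, (1 : ℝ) := Finset.sum_le_sum fun v _ => by split_ifs <;> norm_num
      _ = (d : ℝ) ^ n := by rw [Finset.sum_const, card_W, nsmul_eq_mul]; push_cast; ring

/-- If the walk cannot be below `θ` at time `k`. -/
theorem V_eq_one (hd : 1 ≤ d) (hμ : 0 ≤ μ) {k : ℤ} {u : ℝ} (h : θ < u - k * lam) :
    V d μ lam θ k u = 1 := by
  classical
  rcases lt_or_ge k 0 with hk | hk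
  · exact V_neg hk u
  · obtain ⟨n, rfl⟩ := Int.eq_ofNat_of_zero_le hk
    have hdn : (0 : ℝ) < (d : ℝ) ^ n := by positivity
    rw [V_nat, div_eq_one_iff_eq hdn.ne']
    have h1 : ∀ v ∈ W d n, (if θ < u + sg v * μ - n * lam then (1 : ℝ) else 0) = 1 := by
      intro v _
      rw [if_pos]
      have h2 : 0 ≤ (sg v : ℝ) * μ := by positivity
      push_cast at h
      linarith
    rw [Finset.sum_congr rfl h1, Finset.sum_const, card_W, nsmul_eq_mul]
    push_cast
    ring

/-- The Markov property. -/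
theorem V_markov (hd : 1 ≤ d) {k t : ℕ} (htk : t ≤ k) (u : ℝ) :
    V d μ lam θ k u =
      (∑ v ∈ W d t, V d μ lam θ ((k : ℤ) - t) (u + sg v * μ - t * lam)) / (d : ℝ) ^ t := by
  classical
  obtain ⟨n, rfl⟩ := Nat.exists_eq_add_of_le htk
  have e : (((t + n : ℕ) : ℤ) - (t : ℤ)) = (n : ℤ) := by push_cast; ring
  have hdt : (0 : ℝ) < (d : ℝ) ^ t := by positivity
  have hdn : (0 : ℝ) < (d : ℝ) ^ n := by positivity
  rw [e, V_nat]
  simp only [V_nat]
  rw [sum_W_add, ← Finset.sum_div, div_div, pow_add, mul_comm ((d : ℝ) ^ n)]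
  congr 1
  refine Finset.sum_congr rfl fun v _ => Finset.sum_congr rfl fun w _ => ?_
  have e2 : u + ((sg (v ++ w) : ℕ) : ℝ) * μ - ((t + n : ℕ) : ℝ) * lam =
      u + sg v * μ - t * lam + sg w * μ - n * lam := by
    rw [sg_append]; push_cast; ring
  rw [e2]

/-- `V` is harmonic (for times `t` so short that the walk cannot pass below `θ`). -/
theorem V_harm (hd : 1 ≤ d) (hμ : 0 ≤ μ) (hlam : 0 ≤ lam) {t : ℕ} {u : ℝ} (h : θ < u - t * lam)
    (k : ℤ) : V d μ lam θ k u =
      (∑ v ∈ W d t, V d μ lam θ (k - t) (u + sg v * μ - t * lam)) / (d : ℝ) ^ t := by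
  rcases lt_or_ge k t with hk | hk
  · have h1 : V d μ lam θ k u = 1 := by
      apply V_eq_one hd hμ
      have h2 : (k : ℝ) ≤ t := by exact_mod_cast hk.le
      have h3 := mul_le_mul_of_nonneg_right h2 hlam
      linarith
    have h2 : ∀ v ∈ W d t, V d μ lam θ (k - t) (u + sg v * μ - t * lam) = 1 := fun v _ =>
      V_neg (by omega) _
    have hdt : (0 : ℝ) < (d : ℝ) ^ t := by positivity
    rw [h1, Finset.sum_congr rfl h2, Finset.sum_const, card_W, nsmul_eq_mul, mul_one]
    push_cast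
    rw [div_self hdt.ne']
  · obtain ⟨n, rfl⟩ := Int.eq_ofNat_of_zero_le (by omega : 0 ≤ k)
    exact V_markov hd (by exact_mod_cast hk) u

/-- The walk started at `u < θ` is rarely above `θ`. -/
theorem exists_expo (hd : 2 ≤ d) (hμ : 0 < μ) (hlam : 0 < lam)
    (hγ : (1 - 1 / (d : ℝ)) * μ < lam) :
    ∃ c : ℝ, 0 < c ∧ ∀ (θ : ℝ) (k : ℕ) (u : ℝ), V d μ lam θ k u ≤ Real.exp (-(c * (θ - u))) := by
  have hd2 : (2 : ℝ) ≤ d := by exact_mod_cast hd
  have hd0 : (0 : ℝ) < d := by linarith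
  set p := 1 - 1 / (d : ℝ) with hp
  have hp0 : 0 < p := by
    have : 1 / (d : ℝ) ≤ 1 / 2 := one_div_le_one_div_of_le (by norm_num) hd2
    linarith
  have hp1 : p < 1 := by
    have : 0 < 1 / (d : ℝ) := by positivity
    linarith
  set γ := lam - p * μ with hγdef
  have hγ0 : 0 < γ := by linarith
  -- the choice of `c`
  set R := lam + μ + 1 with hR
  have hR0 : 1 < R := by linarith
  set c := min (1 / R) (γ / R ^ 2) with hc
  have hc0 : 0 < c := lt_min (by positivity) (by positivity)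
  have hc1 : c * R ≤ 1 := by
    calc c * R ≤ 1 / R * R := mul_le_mul_of_nonneg_right (min_le_left _ _) (by linarith)
      _ = 1 := by field_simp
  have hc2 : c * R ^ 2 ≤ γ := by
    calc c * R ^ 2 ≤ γ / R ^ 2 * R ^ 2 := mul_le_mul_of_nonneg_right (min_le_right _ _) (by positivity)
      _ = γ := by field_simp
  -- the exponential bound
  have hexp : ∀ x : ℝ, |x| ≤ R → Real.exp (c * x) ≤ 1 + c * x + c ^ 2 * R ^ 2 := by
    intro x hx
    have h1 : |c * x| ≤ 1 := by
      rw [abs_mul, abs_of_pos hc0]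
      exact (mul_le_mul_of_nonneg_left hx hc0.le).trans hc1
    have h2 := (abs_le.1 (Real.abs_exp_sub_one_sub_id_le h1)).2
    have h3 : (c * x) ^ 2 ≤ c ^ 2 * R ^ 2 := by
      rw [mul_pow]
      apply mul_le_mul_of_nonneg_left _ (by positivity)
      rw [← sq_abs]
      exact pow_le_pow_left₀ (abs_nonneg _) hx 2
    linarith
  have hM : (1 + ((d : ℝ) - 1) * Real.exp (c * μ)) * Real.exp (-(c * lam)) ≤ d := by
    have h1 := hexp (-lam) (by rw [abs_neg, abs_of_pos hlam]; linarith)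
    have h2 := hexp (μ - lam) (by
      rw [abs_le]; constructor <;> linarith)
    have e1 : (1 + ((d : ℝ) - 1) * Real.exp (c * μ)) * Real.exp (-(c * lam)) =
        Real.exp (c * (-lam)) + (d - 1) * Real.exp (c * (μ - lam)) := by
      rw [add_mul, one_mul, mul_assoc, ← Real.exp_add]
      congr 2
      · ring
      · congr 1; ring
    rw [e1]
    have h3 : ((d : ℝ) - 1) * Real.exp (c * (μ - lam)) ≤
        (d - 1) * (1 + c * (μ - lam) + c ^ 2 * R ^ 2) :=
      mul_le_mul_of_nonneg_left h2 (by linarith)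
    have h4 : (1 + c * (-lam) + c ^ 2 * R ^ 2) + ((d : ℝ) - 1) * (1 + c * (μ - lam) + c ^ 2 * R ^ 2) =
        d + d * c * (c * R ^ 2 - γ) := by
      rw [hγdef, hp]
      field_simp
      ring
    have h5 : d * c * (c * R ^ 2 - γ) ≤ 0 :=
      mul_nonpos_of_nonneg_of_nonpos (by positivity) (by linarith)
    linarith
  refine ⟨c, hc0, fun θ k u => ?_⟩
  classical
  have hdk : (0 : ℝ) < (d : ℝ) ^ k := by positivity
  rw [V_nat, div_le_iff₀ hdk]
  have hterm : ∀ v ∈ W d k, (if θ < u + sg v * μ - k * lam then (1 : ℝ) else 0) ≤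
      Real.exp (-(c * (θ - u))) * ((Real.exp (c * μ)) ^ sg v * (Real.exp (-(c * lam))) ^ k) := by
    intro v _
    have e1 : Real.exp (-(c * (θ - u))) * ((Real.exp (c * μ)) ^ sg v *
        (Real.exp (-(c * lam))) ^ k) = Real.exp (c * (u + sg v * μ - k * lam - θ)) := by
      rw [← Real.exp_nat_mul, ← Real.exp_nat_mul, ← Real.exp_add, ← Real.exp_add]
      congr 1
      ring
    rw [e1]
    split_ifs with h
    · apply Real.one_le_exp
      have : 0 ≤ u + sg v * μ - k * lam - θ := by linarith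
      positivity
    · exact (Real.exp_pos _).le
  refine (Finset.sum_le_sum hterm).trans ?_
  rw [← Finset.mul_sum, ← Finset.sum_mul, sum_pow_sg d k _ (by omega), ← mul_pow]
  apply mul_le_mul_of_nonneg_left _ (Real.exp_pos _).le
  apply pow_le_pow_left₀ _ hM
  have : 0 < Real.exp (c * μ) := Real.exp_pos _
  have h2 : 0 ≤ ((d : ℝ) - 1) * Real.exp (c * μ) := mul_nonneg (by linarith) this.le
  positivity

end Pool.Agent.Helper8.CL
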