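import Pool.Agent.Helper8.CL.FlowGen
import Pool.Agent.Helper8.CL.MaxP2
import Pool.Agent.Helper8.CL.Walk

/-!
# The flow inequality for the sets of the integers whose orbit is above `z` up to time `k`
-/

set_option autoImplicit false

namespace Pool.Agent.Helper8.CL

open Pool.Agent.Helper68.Moeller Pool.Agent.Helper52.Tao Pool.Agent.Helper8.ND

/-- The orbit is above `z` up to time `k`. -/
def SK (d m : ℕ) (r : ℤ → ℤ) (z : ℝ) (k : ℤ) : Set ℤ :=
  {n | ∀ i : ℕ, (i : ℤ) ≤ k → z < ((T d m r)^[i] n : ℝ)}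

/-- The orbit is above `z`. -/
def NZ (d m : ℕ) (r : ℤ → ℤ) (z : ℝ) : Set ℤ := {n | ∀ i : ℕ, z < ((T d m r)^[i] n : ℝ)}

variable {d m : ℕ} {r : ℤ → ℤ}

theorem SK_neg {z : ℝ} {k : ℤ} (hk : k < 0) : SK d m r z k = Set.univ := by
  ext n
  simp only [SK, Set.mem_ofPred_eq, Set.mem_univ, iff_true]
  intro i hi
  omega

theorem NZ_subset (z : ℝ) (k : ℤ) : NZ d m r z ⊆ SK d m r z k := fun _ hn i _ => hn i

theorem T_ge (hd : 2 ≤ d) (hm : 1 ≤ m) (hr : Admissible d m r) {B : ℕ}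
    (hB : ∀ j : ℤ, 0 < j → j < (d : ℤ) → |r j| ≤ B) {n : ℤ} (hn : 0 ≤ n) :
    n - B ≤ d * T d m r n := by
  by_cases h : (d : ℤ) ∣ n
  · have h1 : T d m r n = n / d := if_pos h
    rw [h1, Int.mul_ediv_cancel' h]
    have : (0 : ℤ) ≤ B := by positivity
    linarith
  · rw [d_mul_T_of_not_dvd hr hd h]
    have h2 := emod_pos hd h
    have h3 := (abs_le.1 (hB _ h2.1 h2.2)).2
    have h4 : n ≤ (m : ℤ) * n := le_mul_of_one_le_left hn (by exact_mod_cast hm)
    linarith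

theorem iter_gt (hd : 2 ≤ d) (hm : 1 ≤ m) (hr : Admissible d m r) {B : ℕ}
    (hB : ∀ j : ℤ, 0 < j → j < (d : ℤ) → |r j| ≤ B) {z Z : ℝ} (hz : z < Z) (hZ : 0 < Z)
    (hBZ : (B : ℝ) ≤ Z) (i : ℕ) : ∀ n : ℤ, (2 * (d : ℝ)) ^ i * Z ≤ n →
      ∀ j : ℕ, j ≤ i → z < ((T d m r)^[j] n : ℝ) := by
  have hd2 : (2 : ℝ) ≤ d := by exact_mod_cast hd
  induction i with
  | zero =>
    intro n hn j hj
    obtain rfl : j = 0 := by omega
    rw [pow_zero, one_mul] at hn
    simp only [Function.iterate_zero, id]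
    linarith
  | succ i ih =>
    intro n hn j hj
    have hP : 1 ≤ (2 * (d : ℝ)) ^ i := one_le_pow₀ (by linarith)
    have hn0 : (0 : ℝ) ≤ n := le_trans (by positivity) hn
    rcases j with _ | j
    · simp only [Function.iterate_zero, id]
      have h1 : Z ≤ (2 * (d : ℝ)) ^ (i + 1) * Z :=
        le_mul_of_one_le_left hZ.le (one_le_pow₀ (by linarith))
      linarith
    · rw [Function.iterate_succ_apply]
      refine ih _ ?_ j (by omega)
      have h1 := T_ge hd hm hr hB (n := n) (by exact_mod_cast hn0)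
      have h2 : (n : ℝ) - B ≤ d * (T d m r n : ℝ) := by exact_mod_cast h1
      have h3 : (B : ℝ) ≤ d * ((2 * (d : ℝ)) ^ i * Z) := by
        have h4 : Z ≤ (2 * (d : ℝ)) ^ i * Z := le_mul_of_one_le_left hZ.le hP
        have h5 : (2 * (d : ℝ)) ^ i * Z ≤ d * ((2 * (d : ℝ)) ^ i * Z) :=
          le_mul_of_one_le_left (by positivity) (by linarith)
        linarith
      rw [pow_succ] at hn
      have h6 : (d : ℝ) * ((2 * (d : ℝ)) ^ i * Z) ≤ d * (T d m r n : ℝ) := by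
        have e : (2 * (d : ℝ)) ^ i * (2 * d) * Z = 2 * (d * ((2 * (d : ℝ)) ^ i * Z)) := by ring
        linarith
      exact le_of_mul_le_mul_left h6 (by linarith)

theorem mem_iter {G : Set ℤ} {z : ℝ} (hG : TInv d m r G z) (s : ℕ) : ∀ n : ℤ,
    (∀ j : ℕ, j ≤ s → z < ((T d m r)^[j] n : ℝ)) → (n ∈ G ↔ (T d m r)^[s] n ∈ G) := by
  induction s with
  | zero => intro n _; rfl
  | succ s ih =>
    intro n h
    rw [Function.iterate_succ_apply, hG n (by simpa using h 0 (by omega))]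
    refine ih _ fun j hj => ?_
    have := h (j + 1) (by omega)
    rwa [Function.iterate_succ_apply] at this

theorem mem_SK_iter {z : ℝ} (s : ℕ) (n : ℤ)
    (h : ∀ j : ℕ, j ≤ s → z < ((T d m r)^[j] n : ℝ)) (k : ℤ) :
    n ∈ SK d m r z k ↔ (T d m r)^[s] n ∈ SK d m r z (k - s) := by
  constructor
  · intro hn i hi
    have := hn (i + s) (by push_cast; linarith)
    rwa [Function.iterate_add_apply] at this
  · intro hn i hi
    rcases le_or_gt i s with h1 | h1
    · exact h i h1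
    · obtain ⟨j, rfl⟩ := Nat.exists_eq_add_of_lt h1
      have := hn (j + 1) (by push_cast at hi ⊢; linarith)
      rwa [← Function.iterate_add_apply, show j + 1 + s = s + j + 1 by ring] at this

theorem fd_congr {A B : Set ℤ} {a : ℝ} (h : ∀ n : ℤ, a ≤ n → (n ∈ A ↔ n ∈ B)) :
    fd A a = fd B a := by
  unfold fd
  congr 3
  ext n
  simp only [Set.mem_ofPred_eq]
  constructor
  · rintro ⟨h1, h2, h3⟩; exact ⟨h1, h2, (h n h1).1 h3⟩
  · rintro ⟨h1, h2, h3⟩; exact ⟨h1, h2, (h n h1).2 h3⟩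

/-- The relative number of the elements of `G` in `[e ^ u, 2 e ^ u)` whose orbit is above `z` up to
time `k`. -/
noncomputable def FK (d m : ℕ) (r : ℤ → ℤ) (z : ℝ) (G : Set ℤ) (k : ℤ) (u : ℝ) : ℝ :=
  fd (SK d m r z k ∩ G) (Real.exp u)

/-- The flow. -/
theorem flowF (hd : 2 ≤ d) (hdm : d < m) (hco : Nat.Coprime m d) (hr : Admissible d m r)
    (h1 : Mixing d m r) :
    ∃ c C : ℝ, 0 < c ∧ 0 < C ∧ ∀ z : ℝ, 1 ≤ z → ∃ u₀ : ℝ, 0 ≤ u₀ ∧ ∀ G : Set ℤ, TInv d m r G z →
      ∀ (k : ℤ) (u : ℝ), u₀ ≤ u → ∀ t : ℕ, 1 ≤ t → (t : ℝ) ≤ c * u →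
        |FK d m r z G k u - (∑ v ∈ W d t, FK d m r z G (k - t)
          (u + sg v * Real.log m - t * Real.log d)) / (d : ℝ) ^ t| ≤ C / (t : ℝ) ^ 8 := by
  obtain ⟨C, hC, hflow⟩ := flowg hd hdm hco hr h1
  obtain ⟨B, hB⟩ := FL_exists_B d r
  have hd2 : (2 : ℝ) ≤ d := by exact_mod_cast hd
  have hm3 : (3 : ℝ) ≤ m := by exact_mod_cast (by omega : 3 ≤ m)
  have hd0 : (0 : ℝ) < d := by linarith
  have hm0 : (0 : ℝ) < m := by linarith
  have hq1 : 0 < Real.log ((d : ℝ) * m) := Real.log_pos (by nlinarith)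
  have hq2 : 0 < Real.log (2 * (d : ℝ)) := Real.log_pos (by linarith)
  set Q := 16 * Real.log ((d : ℝ) * m) + 6 * Real.log (2 * (d : ℝ)) with hQ
  have hQ0 : 0 < Q := by positivity
  refine ⟨1 / Q, C, by positivity, by linarith, fun z hz => ?_⟩
  set Z := z + 1 + B with hZ
  have hB0 : (0 : ℝ) ≤ B := by positivity
  have hZ1 : 2 ≤ Z := by linarith
  have hlC := Real.log_nonneg hC
  have hlZ := Real.log_nonneg (by linarith : (1 : ℝ) ≤ Z)
  refine ⟨2 * Real.log C + 2 * Real.log Z, by positivity, ?_⟩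
  intro G hG k u hu t ht htu
  have htQ : t * Q ≤ u := by
    have h2 := mul_le_mul_of_nonneg_right htu hQ0.le
    have e : 1 / Q * u * Q = u := by field_simp
    linarith
  have ht0 : (0 : ℝ) < t := by exact_mod_cast ht
  have hdt : (0 : ℝ) < (d : ℝ) ^ t := by positivity
  -- the size of `a`
  have hs1 : C * ((d : ℝ) * m) ^ (8 * t) ≤ Real.exp u := by
    have h2 : 0 < C * ((d : ℝ) * m) ^ (8 * t) := by positivity
    rw [← Real.log_le_iff_le_exp h2, Real.log_mul (by positivity) (by positivity), Real.log_pow]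
    push_cast
    have h3 : 0 ≤ t * (6 * Real.log (2 * (d : ℝ))) := by positivity
    have h4 : t * Q = t * (16 * Real.log ((d : ℝ) * m)) + t * (6 * Real.log (2 * (d : ℝ))) := by
      rw [hQ]; ring
    linarith
  have hs2 : (2 * (d : ℝ)) ^ (3 * t) * Z ≤ Real.exp u := by
    have h2 : 0 < (2 * (d : ℝ)) ^ (3 * t) * Z := by positivity
    rw [← Real.log_le_iff_le_exp h2, Real.log_mul (by positivity) (by positivity), Real.log_pow]
    push_cast
    have h3 : 0 ≤ t * (16 * Real.log ((d : ℝ) * m)) := by positivity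
    have h4 : t * Q = t * (16 * Real.log ((d : ℝ) * m)) + t * (6 * Real.log (2 * (d : ℝ))) := by
      rw [hQ]; ring
    linarith
  -- the iterates
  have hiter : ∀ n : ℤ, Real.exp u / (d : ℝ) ^ t ≤ n → ∀ j : ℕ, j ≤ t + t →
      z < ((T d m r)^[j] n : ℝ) := by
    intro n hn
    refine iter_gt hd (by omega) hr hB (by linarith : z < Z) (by linarith) (by linarith) _ n ?_
    refine le_trans ?_ hn
    rw [le_div_iff₀ hdt]
    refine le_trans ?_ hs2
    have h2 : (d : ℝ) ^ t ≤ (2 * (d : ℝ)) ^ t := pow_le_pow_left₀ hd0.le (by linarith) t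
    calc (2 * (d : ℝ)) ^ (t + t) * Z * (d : ℝ) ^ t
        ≤ (2 * (d : ℝ)) ^ (t + t) * Z * (2 * (d : ℝ)) ^ t := by gcongr
      _ = (2 * (d : ℝ)) ^ (3 * t) * Z := by ring
  have hexp0 := Real.exp_pos u
  have hself : Real.exp u / (d : ℝ) ^ t ≤ Real.exp u :=
    div_le_self hexp0.le (one_le_pow₀ (by linarith))
  have h2 := hflow t ht (Real.exp u) hs1 (SK d m r z (k - (t + t : ℕ)) ∩ G)
  have e1 : fd (pre d m r (t + t) (SK d m r z (k - (t + t : ℕ)) ∩ G)) (Real.exp u) =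
      FK d m r z G k u := by
    refine fd_congr fun n hn => ?_
    have h3 := hiter n (hself.trans hn)
    have h4 := mem_SK_iter (t + t) n h3 k
    have h5 := mem_iter hG (t + t) n h3
    exact ⟨fun h => ⟨h4.2 h.1, h5.2 h.2⟩, fun h => ⟨h4.1 h.1, h5.1 h.2⟩⟩
  have e2 : ∀ v ∈ W d t, fd (pre d m r t (SK d m r z (k - (t + t : ℕ)) ∩ G))
      (Real.exp u * (m : ℝ) ^ sg v / (d : ℝ) ^ t) =
      FK d m r z G (k - t) (u + sg v * Real.log m - t * Real.log d) := by
    intro v _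
    have e3 : Real.exp (u + sg v * Real.log m - t * Real.log d) =
        Real.exp u * (m : ℝ) ^ sg v / (d : ℝ) ^ t := by
      rw [Real.exp_sub, Real.exp_add, ← Real.log_pow, ← Real.log_pow, Real.exp_log (by positivity),
        Real.exp_log hdt]
    unfold FK
    rw [e3]
    refine fd_congr fun n hn => ?_
    have h3 : ∀ j : ℕ, j ≤ t → z < ((T d m r)^[j] n : ℝ) := by
      intro j hj
      refine hiter n (le_trans ?_ hn) j (by omega)
      apply div_le_div_of_nonneg_right _ hdt.le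
      exact le_mul_of_one_le_right hexp0.le (one_le_pow₀ (by linarith))
    have h4 := mem_SK_iter t n h3 (k - t)
    have e4 : k - (t : ℤ) - (t : ℤ) = k - ((t + t : ℕ) : ℤ) := by push_cast; ring
    rw [e4] at h4
    have h5 := mem_iter hG t n h3
    exact ⟨fun h => ⟨h4.2 h.1, h5.2 h.2⟩, fun h => ⟨h4.1 h.1, h5.1 h.2⟩⟩
  rw [e1, Finset.sum_congr rfl e2] at h2
  exact h2

end Pool.Agent.Helper8.CL
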